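import Mathlib

/-!
MP_572ea3_nt: Fibonacci numbers which are half a sum or difference of two cubes (helper21).
-/

set_option autoImplicit false

namespace H21FC

/-- Fibonacci numbers as integers. -/
def F (n : ℕ) : ℤ := (Nat.fib n : ℤ)

/-- Lucas numbers. -/
def L (n : ℕ) : ℤ := 2 * F (n + 1) - F n

theorem F_rec (n : ℕ) : F (n + 2) = F n + F (n + 1) := by
  unfold F
  rw [Nat.fib_add_two]
  push_cast
  ring

theorem L_rec (n : ℕ) : L (n + 2) = L n + L (n + 1) := by
  unfold L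
  rw [F_rec n, show n + 2 + 1 = (n + 1) + 2 by ring, F_rec (n + 1)]
  rw [show n + 1 + 1 = n + 2 by ring, F_rec n]
  ring

theorem F0 : F 0 = 0 := by simp [F]
theorem F1 : F 1 = 1 := by simp [F]
theorem L0 : L 0 = 2 := by simp [L, F]
theorem L1 : L 1 = 1 := by simp [L, F]
theorem L2 : L 2 = 3 := by rw [show (2 : ℕ) = 0 + 2 by norm_num, L_rec, L0, L1]; norm_num
theorem L3 : L 3 = 4 := by rw [show (3 : ℕ) = 1 + 2 by norm_num, L_rec, show 1 + 1 = 2 by norm_num, L1, L2]; norm_num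

theorem F_nonneg (n : ℕ) : 0 ≤ F n := Int.natCast_nonneg _

theorem F_pos {n : ℕ} (h : 0 < n) : 0 < F n := by
  unfold F
  exact_mod_cast Nat.fib_pos.2 h

theorem L_pos (n : ℕ) : 0 < L n := by
  induction n using Nat.strong_induction_on with
  | _ n ih =>
    match n with
    | 0 => rw [L0]; norm_num
    | 1 => rw [L1]; norm_num
    | n + 2 =>
      rw [L_rec]
      have h1 := ih n (by omega)
      have h2 := ih (n + 1) (by omega)
      linarith

/-- Addition formula `L (m + n) = (L m * L n + 5 F m F n) / 2` in the form with `F`. -/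
theorem F_add (m n : ℕ) : F (m + n + 1) = F m * F n + F (m + 1) * F (n + 1) := by
  unfold F
  rw [Nat.fib_add]
  push_cast
  ring

theorem L_add (m n : ℕ) : L (m + n + 1) = F m * L n + F (m + 1) * L (n + 1) := by
  unfold L
  rw [F_add m n, show m + n + 1 + 1 = m + (n + 1) + 1 by ring, F_add m (n + 1)]
  ring

theorem cassini (n : ℕ) : F (n + 1) ^ 2 - F (n + 1) * F n - F n ^ 2 = (-1) ^ n := by
  induction n with
  | zero => rw [F0, F1]; norm_num
  | succ n ih =>
    rw [show n + 1 + 1 = n + 2 by ring, F_rec, pow_succ]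
    linear_combination -ih

/-- `L (m + 2 k) + L m = L (m + k) * L k` for even `k`. -/
theorem L_two {k : ℕ} (hk : Even k) (m : ℕ) : L (m + 2 * k) + L m = L (m + k) * L k := by
  obtain ⟨j, rfl⟩ := hk
  rcases Nat.eq_zero_or_pos j with rfl | hj
  · simp only [add_zero, mul_zero, L0]
    ring
  obtain ⟨i, rfl⟩ : ∃ i, j = i + 1 := ⟨j - 1, by omega⟩
  have hc := cassini (i + 1 + (i + 1))
  have hsign : ((-1 : ℤ)) ^ (i + 1 + (i + 1)) = 1 := by
    rw [← two_mul, pow_mul]
    norm_num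
  rw [hsign] at hc
  -- `k = 2 i + 2`; write everything in terms of `F k`, `F (k+1)`, `L m`, `L (m+1)`
  set k := i + 1 + (i + 1) with hkd
  obtain ⟨k', hk'⟩ : ∃ k', k = k' + 1 := ⟨k - 1, by omega⟩
  have e1 : L (m + k) = F k' * L m + F (k' + 1) * L (m + 1) := by
    rw [show m + k = k' + m + 1 by omega, L_add]
  have e2 : L (m + 1 + k) = F k' * L (m + 1) + F (k' + 1) * L (m + 2) := by
    rw [show m + 1 + k = k' + (m + 1) + 1 by omega, L_add]
  have e3 : L (m + 2 * k) = F k' * L (m + k) + F (k' + 1) * L (m + 1 + k) := by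
    rw [show m + 2 * k = k' + (m + k) + 1 by omega, L_add, show m + k + 1 = m + 1 + k by ring]
  have e4 : F (k + 1) = F k' + F k := by
    rw [hk', show k' + 1 + 1 = k' + 2 by ring, F_rec]
  have e5 : L k = 2 * F (k + 1) - F k := rfl
  rw [e3, e2, e1, L_rec, e5, ← hk', e4]
  rw [e4] at hc
  linear_combination -(L m) * hc



/-! ### congruences modulo `L k` -/

theorem L_mul {k : ℕ} (hk : Even k) (m i : ℕ) : L k ∣ L (m + 2 * k * i) - (-1) ^ i * L m := by
  induction i with
  | zero => simp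
  | succ i ih =>
    have h := L_two hk (m + 2 * k * i)
    have e : m + 2 * k * (i + 1) = m + 2 * k * i + 2 * k := by ring
    rw [e]
    obtain ⟨c, hc⟩ := ih
    refine ⟨L (m + 2 * k * i + k) - c, ?_⟩
    rw [pow_succ]
    linear_combination h - hc

/-- `L (2 k - 2) = - 3` modulo `L k`. -/
theorem L_back {k : ℕ} (hk : Even k) (h2 : 2 ≤ k) : L k ∣ L (2 * k - 2) + 3 := by
  obtain ⟨j, rfl⟩ : ∃ j, k = j + 2 := ⟨k - 2, by omega⟩
  have hj : Even j := by
    rcases hk with ⟨t, ht⟩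
    exact ⟨t - 1, by omega⟩
  -- `L (2 + 2 j) + L 2 = L (2 + j) * L j`
  have h := L_two hj 2
  rw [L2] at h
  refine ⟨L j, ?_⟩
  rw [show 2 * (j + 2) - 2 = 2 + 2 * j by omega, show j + 2 = 2 + j by ring]
  exact h

/-! ### residues -/

theorem L_mod4 (n : ℕ) : (L n % 4 = [2, 1, 3, 0, 3, 3].getD (n % 6) 0) := by
  induction n using Nat.strong_induction_on with
  | _ n ih =>
    match n with
    | 0 => rw [L0]; decide
    | 1 => rw [L1]; decide
    | n + 2 =>
      have h1 := ih n (by omega)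
      have h2 := ih (n + 1) (by omega)
      rw [L_rec]
      have h3 : n % 6 = 0 ∨ n % 6 = 1 ∨ n % 6 = 2 ∨ n % 6 = 3 ∨ n % 6 = 4 ∨ n % 6 = 5 := by omega
      rcases h3 with h | h | h | h | h | h
      · rw [h] at h1
        rw [show (n + 1) % 6 = 1 by omega] at h2
        rw [show (n + 2) % 6 = 2 by omega]
        simp at h1 h2 ⊢
        omega
      · rw [h] at h1
        rw [show (n + 1) % 6 = 2 by omega] at h2
        rw [show (n + 2) % 6 = 3 by omega]
        simp at h1 h2 ⊢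
        omega
      · rw [h] at h1
        rw [show (n + 1) % 6 = 3 by omega] at h2
        rw [show (n + 2) % 6 = 4 by omega]
        simp at h1 h2 ⊢
        omega
      · rw [h] at h1
        rw [show (n + 1) % 6 = 4 by omega] at h2
        rw [show (n + 2) % 6 = 5 by omega]
        simp at h1 h2 ⊢
        omega
      · rw [h] at h1
        rw [show (n + 1) % 6 = 5 by omega] at h2
        rw [show (n + 2) % 6 = 0 by omega]
        simp at h1 h2 ⊢
        omega
      · rw [h] at h1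
        rw [show (n + 1) % 6 = 0 by omega] at h2
        rw [show (n + 2) % 6 = 1 by omega]
        simp at h1 h2 ⊢
        omega

theorem L_three {k : ℕ} (hk : Even k) (h3 : ¬ 3 ∣ k) : L k % 4 = 3 := by
  rw [L_mod4]
  obtain ⟨t, ht⟩ := hk
  have h : k % 6 = 2 ∨ k % 6 = 4 := by omega
  rcases h with h | h <;> rw [h] <;> rfl

/-- `F` and `L` modulo 3, period 8 -/
theorem mod3 (n : ℕ) : F n % 3 = [0, 1, 1, 2, 0, 2, 2, 1].getD (n % 8) 0 ∧
    L n % 3 = [2, 1, 0, 1, 1, 2, 0, 2].getD (n % 8) 0 := by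
  induction n using Nat.strong_induction_on with
  | _ n ih =>
    match n with
    | 0 => rw [L0, F0]; decide
    | 1 => rw [L1, F1]; decide
    | n + 2 =>
      obtain ⟨h1, h1'⟩ := ih n (by omega)
      obtain ⟨h2, h2'⟩ := ih (n + 1) (by omega)
      rw [L_rec, F_rec]
      have h3 : n % 8 = 0 ∨ n % 8 = 1 ∨ n % 8 = 2 ∨ n % 8 = 3 ∨ n % 8 = 4 ∨ n % 8 = 5 ∨ n % 8 = 6 ∨
        n % 8 = 7 := by omega
      rcases h3 with h | h | h | h | h | h | h | h
      · rw [h] at h1 h1'
        rw [show (n + 1) % 8 = 1 by omega] at h2 h2'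
        rw [show (n + 2) % 8 = 2 by omega]
        simp at h1 h2 h1' h2' ⊢
        omega
      · rw [h] at h1 h1'
        rw [show (n + 1) % 8 = 2 by omega] at h2 h2'
        rw [show (n + 2) % 8 = 3 by omega]
        simp at h1 h2 h1' h2' ⊢
        omega
      · rw [h] at h1 h1'
        rw [show (n + 1) % 8 = 3 by omega] at h2 h2'
        rw [show (n + 2) % 8 = 4 by omega]
        simp at h1 h2 h1' h2' ⊢
        omega
      · rw [h] at h1 h1'
        rw [show (n + 1) % 8 = 4 by omega] at h2 h2'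
        rw [show (n + 2) % 8 = 5 by omega]
        simp at h1 h2 h1' h2' ⊢
        omega
      · rw [h] at h1 h1'
        rw [show (n + 1) % 8 = 5 by omega] at h2 h2'
        rw [show (n + 2) % 8 = 6 by omega]
        simp at h1 h2 h1' h2' ⊢
        omega
      · rw [h] at h1 h1'
        rw [show (n + 1) % 8 = 6 by omega] at h2 h2'
        rw [show (n + 2) % 8 = 7 by omega]
        simp at h1 h2 h1' h2' ⊢
        omega
      · rw [h] at h1 h1'
        rw [show (n + 1) % 8 = 7 by omega] at h2 h2'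
        rw [show (n + 2) % 8 = 0 by omega]
        simp at h1 h2 h1' h2' ⊢
        omega
      · rw [h] at h1 h1'
        rw [show (n + 1) % 8 = 0 by omega] at h2 h2'
        rw [show (n + 2) % 8 = 1 by omega]
        simp at h1 h2 h1' h2' ⊢
        omega

/-! ### no `y² + c²` is divisible by a number `3` modulo `4` -/

theorem ex_prime (N : ℕ) (h : N % 4 = 3) : ∃ p : ℕ, p.Prime ∧ p ∣ N ∧ p % 4 = 3 := by
  induction N using Nat.strong_induction_on with
  | _ N ih =>
    have h1 : N ≠ 1 := by omega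
    have hp := Nat.minFac_prime h1
    obtain ⟨c, hc⟩ := Nat.minFac_dvd N
    by_cases hp3 : N.minFac % 4 = 3
    · exact ⟨N.minFac, hp, Nat.minFac_dvd N, hp3⟩
    · have hodd : N.minFac % 4 = 1 := by
        have h2 : N.minFac % 2 = 1 := by
          rcases hp.eq_two_or_odd with h2 | h2
          · exfalso
            rw [h2] at hc
            omega
          · exact h2
        omega
      have hc3 : c % 4 = 3 := by
        have h4 : N % 4 = (N.minFac % 4) * (c % 4) % 4 := by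
          conv_lhs => rw [hc]
          rw [Nat.mul_mod]
        rw [h, hodd, one_mul] at h4
        omega
      have hcN : c < N := by
        have h5 : 2 ≤ N.minFac := hp.two_le
        have h6 : 0 < c := by omega
        calc c < 2 * c := by omega
          _ ≤ N.minFac * c := Nat.mul_le_mul_right c h5
          _ = N := hc.symm
      obtain ⟨p, hp1, hp2, hp3'⟩ := ih c hcN hc3
      exact ⟨p, hp1, hp2.trans ⟨N.minFac, by rw [mul_comm]; exact hc⟩, hp3'⟩

theorem no_sq {M y c : ℤ} (hM : M % 4 = 3) (hM0 : 0 < M) (hd : M ∣ y ^ 2 + c ^ 2)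
    (hc : c = 1 ∨ c = 2) : False := by
  obtain ⟨N, rfl⟩ := Int.eq_ofNat_of_zero_le hM0.le
  have hN : N % 4 = 3 := by omega
  obtain ⟨p, hp, hpN, hp3⟩ := ex_prime N hN
  haveI : Fact p.Prime := ⟨hp⟩
  have hpd : (p : ℤ) ∣ y ^ 2 + c ^ 2 := (Int.natCast_dvd_natCast.2 hpN).trans hd
  have h1 : ((y : ZMod p)) ^ 2 + (c : ZMod p) ^ 2 = 0 := by
    have := (ZMod.intCast_zmod_eq_zero_iff_dvd (y ^ 2 + c ^ 2) p).2 hpd
    push_cast at this
    exact this
  have hp2 : p ≠ 2 := by
    rintro rfl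
    omega
  have hc0 : (c : ZMod p) ≠ 0 := by
    rcases hc with rfl | rfl
    · simp
    · intro h2
      have h3 : ((2 : ℕ) : ZMod p) = 0 := by exact_mod_cast h2
      rw [ZMod.natCast_eq_zero_iff] at h3
      exact hp2 ((Nat.prime_dvd_prime_iff_eq hp Nat.prime_two).1 h3)
  have h4 : ((y : ZMod p) / (c : ZMod p)) ^ 2 = -1 := by
    rw [div_pow]
    have h5 : ((y : ZMod p)) ^ 2 = -(c : ZMod p) ^ 2 := eq_neg_of_add_eq_zero_left h1
    rw [h5, neg_div, div_self (pow_ne_zero 2 hc0)]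
  exact ZMod.mod_four_ne_three_of_sq_eq_neg_one h4 hp3

/-- every positive `j` is `3 ^ r * k` with `k` not divisible by `3` -/
theorem split3 (j : ℕ) (hj : 0 < j) : ∃ r k : ℕ, j = 3 ^ r * k ∧ ¬ 3 ∣ k ∧ 0 < k := by
  obtain ⟨r, k, hk, hjk⟩ := Nat.exists_eq_pow_mul_and_not_dvd hj.ne' 3 (by norm_num)
  refine ⟨r, k, hjk, hk, ?_⟩
  rcases Nat.eq_zero_or_pos k with h | h
  · rw [h] at hk
    exact absurd (dvd_zero 3) hk
  · exact h

theorem odd_pow3 (r : ℕ) : ((-1 : ℤ)) ^ (3 ^ r) = -1 := by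
  rw [Odd.neg_one_pow]
  exact Odd.pow (by decide)

/-- `L m` is not a square for odd `m` different from `1`, `3`. -/
theorem L_sq1 (j : ℕ) (hj : 0 < j) (y : ℤ) (h : L (1 + 4 * j) = y ^ 2) : False := by
  obtain ⟨r, k, hjk, hk3, hk0⟩ := split3 j hj
  have hE : Even (2 * k) := even_two_mul k
  have h1 := L_mul hE 1 (3 ^ r)
  rw [show 1 + 2 * (2 * k) * 3 ^ r = 1 + 4 * j by rw [hjk]; ring, odd_pow3, L1, h] at h1
  have h3 : L (2 * k) % 4 = 3 := L_three hE (by
    intro hd
    exact hk3 ((Nat.Coprime.dvd_mul_left (by norm_num)).1 hd))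
  refine no_sq (y := y) (c := 1) h3 (L_pos _) ?_ (Or.inl rfl)
  have e : y ^ 2 + 1 ^ 2 = y ^ 2 - -1 * 1 := by ring
  rw [e]
  exact h1

theorem L_sq3 (j : ℕ) (hj : 0 < j) (y : ℤ) (h : L (3 + 4 * j) = y ^ 2) : False := by
  obtain ⟨r, k, hjk, hk3, hk0⟩ := split3 j hj
  have hE : Even (2 * k) := even_two_mul k
  have h1 := L_mul hE 3 (3 ^ r)
  rw [show 3 + 2 * (2 * k) * 3 ^ r = 3 + 4 * j by rw [hjk]; ring, odd_pow3, L3, h] at h1
  have h3 : L (2 * k) % 4 = 3 := L_three hE (by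
    intro hd
    exact hk3 ((Nat.Coprime.dvd_mul_left (by norm_num)).1 hd))
  refine no_sq (y := y) (c := 2) h3 (L_pos _) ?_ (Or.inr rfl)
  have e : y ^ 2 + 2 ^ 2 = y ^ 2 - -1 * 4 := by ring
  rw [e]
  exact h1

/-- `L (4 j + 2)` is three times a square only for `j = 0`. -/
theorem L_3sq (j : ℕ) (hj : 0 < j) (t : ℤ) (h : L (2 + 4 * j) = 3 * t ^ 2) : False := by
  have key : ∀ k : ℕ, 4 ∣ k → ¬ 3 ∣ k → L k ∣ L (2 + 4 * j) + 3 → False := by
    intro k h4 h3 hd
    obtain ⟨i, hi⟩ := h4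
    have hE : Even k := ⟨2 * i, by omega⟩
    have h5 : L k % 4 = 3 := L_three hE h3
    rw [h] at hd
    have hcop : IsCoprime (L k) 3 := by
      have h6 : L k % 3 ≠ 0 := by
        have h7 := (mod3 k).2
        have h8 : k % 8 = 0 ∨ k % 8 = 4 := by omega
        rcases h8 with h8 | h8 <;> rw [h8] at h7 <;> simp at h7 <;> omega
      rw [Int.isCoprime_iff_gcd_eq_one, Int.gcd_comm]
      have hp : Prime (3 : ℤ) := Int.prime_three
      have h9 : ¬ (3 : ℤ) ∣ L k := by
        intro hh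
        exact h6 (Int.emod_eq_zero_of_dvd hh)
      exact Int.isCoprime_iff_gcd_eq_one.1 ((Prime.coprime_iff_not_dvd hp).2 h9)
    have h10 : L k ∣ t ^ 2 + 1 ^ 2 := by
      have h11 : L k ∣ 3 * (t ^ 2 + 1 ^ 2) := by
        have e : 3 * (t ^ 2 + 1 ^ 2) = 3 * t ^ 2 + 3 := by ring
        rw [e]
        exact hd
      exact hcop.dvd_of_dvd_mul_left h11
    exact no_sq h5 (L_pos _) h10 (Or.inl rfl)
  rcases Nat.even_or_odd j with he | ho
  · obtain ⟨i, hi⟩ := he
    obtain ⟨r, k, hjk, hk3, hk0⟩ := split3 i (by omega)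
    have hE : Even (4 * k) := ⟨2 * k, by ring⟩
    have h1 := L_mul hE 2 (3 ^ r)
    rw [show 2 + 2 * (4 * k) * 3 ^ r = 2 + 4 * j by rw [hi, hjk]; ring, odd_pow3, L2] at h1
    refine key (4 * k) ⟨k, rfl⟩ (fun hd => hk3 ((Nat.Coprime.dvd_mul_left (by norm_num)).1 hd)) ?_
    have e : L (2 + 4 * j) + 3 = L (2 + 4 * j) - -1 * 3 := by ring
    rw [e]
    exact h1
  · obtain ⟨i, hi⟩ := ho
    obtain ⟨r, k, hjk, hk3, hk0⟩ := split3 (i + 1) (by omega)
    have hE : Even (4 * k) := ⟨2 * k, by ring⟩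
    have h0 := L_back hE (by omega)
    have hs : ∃ s, 3 ^ r = 2 * s + 1 := Odd.pow (by decide : Odd 3)
    obtain ⟨s, hs⟩ := hs
    have h1 := L_mul hE (2 * (4 * k) - 2) (2 * s)
    have e1 : 2 * (4 * k) - 2 + 2 * (4 * k) * (2 * s) = 2 + 4 * j := by
      have e2 : 2 * (4 * k) * (2 * s) + 2 * (4 * k) = 8 * (3 ^ r * k) := by rw [hs]; ring
      rw [← hjk] at e2
      omega
    have e3 : ((-1 : ℤ)) ^ (2 * s) = 1 := by rw [pow_mul]; norm_num
    rw [e1, e3, one_mul] at h1
    refine key (4 * k) ⟨k, rfl⟩ (fun hd => hk3 ((Nat.Coprime.dvd_mul_left (by norm_num)).1 hd)) ?_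
    have e : L (2 + 4 * j) + 3 = (L (2 + 4 * j) - L (2 * (4 * k) - 2)) + (L (2 * (4 * k) - 2) + 3) := by
      ring
    rw [e]
    exact dvd_add h1 h0

end H21FC
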