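import Pool.Agent.H21.FC.Sieve

/-!
MP_572ea3_nt: the residue sieve, kernel evaluation (helper21).
-/

set_option autoImplicit false
set_option maxRecDepth 100000

namespace H21FC

/-- bound for `x + y` -/
def DD : ℕ := 1000001

theorem hf27 : chkF 27 72 f27 = true := by decide +kernel
theorem hv27 : chkV 27 v27 = true := by decide +kernel
theorem hf32 : chkF 32 48 f32 = true := by decide +kernel
theorem hv32 : chkV 32 v32 = true := by decide +kernel
theorem hf7 : chkF 7 16 f7 = true := by decide +kernel
theorem hv7 : chkV 7 v7 = true := by decide +kernel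
theorem hf23 : chkF 23 48 f23 = true := by decide +kernel
theorem hv23 : chkV 23 v23 = true := by decide +kernel
theorem hf5 : chkF 5 20 f5 = true := by decide +kernel
theorem hv5 : chkV 5 v5 = true := by decide +kernel
theorem hf11 : chkF 11 10 f11 = true := by decide +kernel
theorem hv11 : chkV 11 v11 = true := by decide +kernel
theorem hf31 : chkF 31 30 f31 = true := by decide +kernel
theorem hv31 : chkV 31 v31 = true := by decide +kernel
theorem hf41 : chkF 41 40 f41 = true := by decide +kernel
theorem hv41 : chkV 41 v41 = true := by decide +kernel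
theorem hf61 : chkF 61 60 f61 = true := by decide +kernel
theorem hv61 : chkV 61 v61 = true := by decide +kernel
theorem hf17 : chkF 17 36 f17 = true := by decide +kernel
theorem hv17 : chkV 17 v17 = true := by decide +kernel
theorem hf19 : chkF 19 18 f19 = true := by decide +kernel
theorem hv19 : chkV 19 v19 = true := by decide +kernel
theorem hf107 : chkF 107 72 f107 = true := by decide +kernel
theorem hv107 : chkV 107 v107 = true := by decide +kernel
theorem hf181 : chkF 181 90 f181 = true := by decide +kernel
theorem hv181 : chkV 181 v181 = true := by decide +kernel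
theorem hf13 : chkF 13 28 f13 = true := by decide +kernel
theorem hs13 : chkS 13 s13 = true := by decide +kernel
theorem hf29 : chkF 29 14 f29 = true := by decide +kernel
theorem hs29 : chkS 29 s29 = true := by decide +kernel
theorem hf71 : chkF 71 70 f71 = true := by decide +kernel
theorem hs71 : chkS 71 s71 = true := by decide +kernel
theorem hf211 : chkF 211 42 f211 = true := by decide +kernel
theorem hs211 : chkS 211 s211 = true := by decide +kernel
theorem hf83 : chkF 83 168 f83 = true := by decide +kernel
theorem hs83 : chkS 83 s83 = true := by decide +kernel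
theorem hf281 : chkF 281 56 f281 = true := by decide +kernel
theorem hs281 : chkS 281 s281 = true := by decide +kernel
theorem hf421 : chkF 421 84 f421 = true := by decide +kernel
theorem hs421 : chkS 421 s421 = true := by decide +kernel
theorem hf541 : chkF 541 90 f541 = true := by decide +kernel
theorem hs541 : chkS 541 s541 = true := by decide +kernel
theorem hf167 : chkF 167 336 f167 = true := by decide +kernel
theorem hs167 : chkS 167 s167 = true := by decide +kernel
theorem hf241 : chkF 241 240 f241 = true := by decide +kernel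
theorem hs241 : chkS 241 s241 = true := by decide +kernel
theorem hf911 : chkF 911 70 f911 = true := by decide +kernel
theorem hs911 : chkS 911 s911 = true := by decide +kernel
theorem hf1009 : chkF 1009 126 f1009 = true := by decide +kernel
theorem hs1009 : chkS 1009 s1009 = true := by decide +kernel
theorem hf2161 : chkF 2161 80 f2161 = true := by decide +kernel
theorem hs2161 : chkS 2161 s2161 = true := by decide +kernel
theorem hf1427 : chkF 1427 168 f1427 = true := by decide +kernel
theorem hs1427 : chkS 1427 s1427 = true := by decide +kernel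

/-- the admissible `d` for `n` modulo 720 -/
def accA (n : ℕ) : ℕ :=
  ((((((((((((big DD 27 v27 f27 72 n) &&& (big DD 32 v32 f32 48 n)) &&&
    (big DD 7 v7 f7 16 n)) &&&
    (big DD 23 v23 f23 48 n)) &&&
    (big DD 5 v5 f5 20 n)) &&&
    (big DD 11 v11 f11 10 n)) &&&
    (big DD 31 v31 f31 30 n)) &&&
    (big DD 41 v41 f41 40 n)) &&&
    (big DD 61 v61 f61 60 n)) &&&
    (big DD 17 v17 f17 36 n)) &&&
    (big DD 19 v19 f19 18 n)) &&&
    (big DD 107 v107 f107 72 n)) &&&
    (big DD 181 v181 f181 90 n)

/-- some prime excludes the pair `(n, d)`, `n` modulo 5040 -/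
def kA (n d : ℕ) : Bool :=
  (kl 13 28 f13 s13 n d ||
    (kl 29 14 f29 s29 n d ||
    (kl 71 70 f71 s71 n d ||
    (kl 211 42 f211 s211 n d ||
    (kl 83 168 f83 s83 n d ||
    (kl 281 56 f281 s281 n d ||
    (kl 421 84 f421 s421 n d ||
    (kl 541 90 f541 s541 n d ||
    (kl 167 336 f167 s167 n d ||
    (kl 241 240 f241 s241 n d ||
    (kl 911 70 f911 s911 n d ||
    (kl 1009 126 f1009 s1009 n d ||
    (kl 2161 80 f2161 s2161 n d ||
    (kl 1427 168 f1427 s1427 n d))))))))))))))

/-- test of one pair -/
noncomputable def PP (n d : ℕ) : Bool :=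
  Nat.rec true (fun m _ => (Nat.beq (m + 1) 2 || (Nat.beq (m + 1) 4 && Nat.beq n 6)) ||
    allB (fun i => kA (n + 720 * i) (m + 1)) 7) d

/-- test of one class -/
noncomputable def chk (n : ℕ) : Bool :=
  (Nat.beq (fld 27 v27 ((2 * fld 12 f27 (n % 72)) % 27)) 0) || ext (PP n) 20 (accA n) 0

theorem run0 : allB (fun i => chk (0 + i)) 60 = true := by decide +kernel
theorem run1 : allB (fun i => chk (60 + i)) 60 = true := by decide +kernel
theorem run2 : allB (fun i => chk (120 + i)) 60 = true := by decide +kernel
theorem run3 : allB (fun i => chk (180 + i)) 60 = true := by decide +kernel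
theorem run4 : allB (fun i => chk (240 + i)) 60 = true := by decide +kernel
theorem run5 : allB (fun i => chk (300 + i)) 60 = true := by decide +kernel
theorem run6 : allB (fun i => chk (360 + i)) 60 = true := by decide +kernel
theorem run7 : allB (fun i => chk (420 + i)) 60 = true := by decide +kernel
theorem run8 : allB (fun i => chk (480 + i)) 60 = true := by decide +kernel
theorem run9 : allB (fun i => chk (540 + i)) 60 = true := by decide +kernel
theorem run10 : allB (fun i => chk (600 + i)) 60 = true := by decide +kernel
theorem run11 : allB (fun i => chk (660 + i)) 60 = true := by decide +kernel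

theorem run (n : ℕ) (hn : n < 720) : chk n = true := by
  have h : ∃ j, j < 12 ∧ 60 * j ≤ n ∧ n < 60 * j + 60 := ⟨n / 60, by omega, by omega, by omega⟩
  obtain ⟨j, hj, h1, h2⟩ := h
  interval_cases j
  · have := allB_sound run0 (n - 0) (by omega)
    rwa [show 0 + (n - 0) = n by omega] at this
  · have := allB_sound run1 (n - 60) (by omega)
    rwa [show 60 + (n - 60) = n by omega] at this
  · have := allB_sound run2 (n - 120) (by omega)
    rwa [show 120 + (n - 120) = n by omega] at this
  · have := allB_sound run3 (n - 180) (by omega)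
    rwa [show 180 + (n - 180) = n by omega] at this
  · have := allB_sound run4 (n - 240) (by omega)
    rwa [show 240 + (n - 240) = n by omega] at this
  · have := allB_sound run5 (n - 300) (by omega)
    rwa [show 300 + (n - 300) = n by omega] at this
  · have := allB_sound run6 (n - 360) (by omega)
    rwa [show 360 + (n - 360) = n by omega] at this
  · have := allB_sound run7 (n - 420) (by omega)
    rwa [show 420 + (n - 420) = n by omega] at this
  · have := allB_sound run8 (n - 480) (by omega)
    rwa [show 480 + (n - 480) = n by omega] at this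
  · have := allB_sound run9 (n - 540) (by omega)
    rwa [show 540 + (n - 540) = n by omega] at this
  · have := allB_sound run10 (n - 600) (by omega)
    rwa [show 600 + (n - 600) = n by omega] at this
  · have := allB_sound run11 (n - 660) (by omega)
    rwa [show 660 + (n - 660) = n by omega] at this

theorem kA_sound {N d : ℕ} {x y : ℤ} (he : 2 * (Nat.fib N : ℤ) = x ^ 3 + y ^ 3) (hd : x + y = d)
    (h : kA (N % 5040) d = true) : False := by
  unfold kA at h
  simp only [Bool.or_eq_true] at h
  rcases h with h | h | h | h | h | h | h | h | h | h | h | h | h | h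
  · exact kl_sound (by norm_num) (by norm_num) hf13 hs13 (M := 5040) (by norm_num) he hd h
  · exact kl_sound (by norm_num) (by norm_num) hf29 hs29 (M := 5040) (by norm_num) he hd h
  · exact kl_sound (by norm_num) (by norm_num) hf71 hs71 (M := 5040) (by norm_num) he hd h
  · exact kl_sound (by norm_num) (by norm_num) hf211 hs211 (M := 5040) (by norm_num) he hd h
  · exact kl_sound (by norm_num) (by norm_num) hf83 hs83 (M := 5040) (by norm_num) he hd h
  · exact kl_sound (by norm_num) (by norm_num) hf281 hs281 (M := 5040) (by norm_num) he hd h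
  · exact kl_sound (by norm_num) (by norm_num) hf421 hs421 (M := 5040) (by norm_num) he hd h
  · exact kl_sound (by norm_num) (by norm_num) hf541 hs541 (M := 5040) (by norm_num) he hd h
  · exact kl_sound (by norm_num) (by norm_num) hf167 hs167 (M := 5040) (by norm_num) he hd h
  · exact kl_sound (by norm_num) (by norm_num) hf241 hs241 (M := 5040) (by norm_num) he hd h
  · exact kl_sound (by norm_num) (by norm_num) hf911 hs911 (M := 5040) (by norm_num) he hd h
  · exact kl_sound (by norm_num) (by norm_num) hf1009 hs1009 (M := 5040) (by norm_num) he hd h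
  · exact kl_sound (by norm_num) (by norm_num) hf2161 hs2161 (M := 5040) (by norm_num) he hd h
  · exact kl_sound (by norm_num) (by norm_num) hf1427 hs1427 (M := 5040) (by norm_num) he hd h

theorem accA_sound {N d : ℕ} {x y : ℤ} (hdD : d < DD) (he : 2 * (Nat.fib N : ℤ) = x ^ 3 + y ^ 3)
    (hd : x + y = d) : (accA (N % 720)).testBit d = true := by
  unfold accA
  simp only [Nat.testBit_and, Bool.and_eq_true]
  refine ⟨⟨⟨⟨⟨⟨⟨⟨⟨⟨⟨⟨?_, ?_⟩, ?_⟩, ?_⟩, ?_⟩, ?_⟩, ?_⟩, ?_⟩, ?_⟩, ?_⟩, ?_⟩, ?_⟩, ?_⟩
  · exact big_sound (by norm_num) hf27 hv27 (M := 720) (by norm_num) hdD he hd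
  · exact big_sound (by norm_num) hf32 hv32 (M := 720) (by norm_num) hdD he hd
  · exact big_sound (by norm_num) hf7 hv7 (M := 720) (by norm_num) hdD he hd
  · exact big_sound (by norm_num) hf23 hv23 (M := 720) (by norm_num) hdD he hd
  · exact big_sound (by norm_num) hf5 hv5 (M := 720) (by norm_num) hdD he hd
  · exact big_sound (by norm_num) hf11 hv11 (M := 720) (by norm_num) hdD he hd
  · exact big_sound (by norm_num) hf31 hv31 (M := 720) (by norm_num) hdD he hd
  · exact big_sound (by norm_num) hf41 hv41 (M := 720) (by norm_num) hdD he hd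
  · exact big_sound (by norm_num) hf61 hv61 (M := 720) (by norm_num) hdD he hd
  · exact big_sound (by norm_num) hf17 hv17 (M := 720) (by norm_num) hdD he hd
  · exact big_sound (by norm_num) hf19 hv19 (M := 720) (by norm_num) hdD he hd
  · exact big_sound (by norm_num) hf107 hv107 (M := 720) (by norm_num) hdD he hd
  · exact big_sound (by norm_num) hf181 hv181 (M := 720) (by norm_num) hdD he hd

theorem sieve {N d : ℕ} {x y : ℤ} (hd0 : 0 < d) (hdD : d < DD)
    (he : 2 * (Nat.fib N : ℤ) = x ^ 3 + y ^ 3) (hd : x + y = d) :
    d = 2 ∨ (d = 4 ∧ N % 720 = 6) := by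
  have h := run (N % 720) (Nat.mod_lt _ (by norm_num))
  unfold chk at h
  rw [Bool.or_eq_true] at h
  rcases h with h | h
  · exfalso
    have h1 := chkV_sound (q := 27) (by norm_num) hv27 (N := 2 * Nat.fib N) (by push_cast; exact he) hd
    rw [Nat.mod_mod_of_dvd _ (by norm_num), chkF_sound hf27] at h
    rw [Nat.mul_mod, Nat.mod_mod, ← Nat.mul_mod] at h
    rw [Nat.eq_of_beq_eq_true h, Nat.zero_testBit] at h1
    exact Bool.noConfusion h1
  · have h1 := ext_sound 20 _ _ h d (lt_trans hdD (by unfold DD; norm_num)) (accA_sound hdD he hd)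
    rw [Nat.zero_add] at h1
    obtain ⟨m, rfl⟩ : ∃ m, d = m + 1 := ⟨d - 1, by omega⟩
    have h2 : ((Nat.beq (m + 1) 2 || (Nat.beq (m + 1) 4 && Nat.beq (N % 720) 6)) ||
      allB (fun i => kA (N % 720 + 720 * i) (m + 1)) 7) = true := h1
    rw [Bool.or_eq_true, Bool.or_eq_true, Bool.and_eq_true] at h2
    rcases h2 with (h3 | ⟨h3, h4⟩) | h3
    · left; exact Nat.eq_of_beq_eq_true h3
    · right; exact ⟨Nat.eq_of_beq_eq_true h3, Nat.eq_of_beq_eq_true h4⟩
    · exfalso
      have h4 := allB_sound h3 (N % 5040 / 720) (by omega)
      have h5 : N % 720 + 720 * (N % 5040 / 720) = N % 5040 := by omega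
      simp only [h5] at h4
      exact kA_sound he hd h4

end H21FC
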