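import Pool.Agent.H21.FC.Main
import Pool.Agent.H21.FC.Run

/-!
MP_572ea3_nt: the final statement with the residue sieve (helper21).
-/

set_option autoImplicit false

namespace H21FC

/-- `F (m + 2 k) + F m = F (m + k) * L k` for even `k`. -/
theorem F_two {k : ℕ} (hk : Even k) (m : ℕ) : F (m + 2 * k) + F m = F (m + k) * L k := by
  obtain ⟨j, rfl⟩ := hk
  rcases Nat.eq_zero_or_pos j with rfl | hj
  · simp only [add_zero, mul_zero, L0]
    ring
  obtain ⟨i, rfl⟩ : ∃ i, j = i + 1 := ⟨j - 1, by omega⟩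
  have hc := cassini (i + 1 + (i + 1))
  have hsign : ((-1 : ℤ)) ^ (i + 1 + (i + 1)) = 1 := by
    rw [← two_mul, pow_mul]
    norm_num
  rw [hsign] at hc
  set k := i + 1 + (i + 1) with hkd
  obtain ⟨k', hk'⟩ : ∃ k', k = k' + 1 := ⟨k - 1, by omega⟩
  have e1 : F (m + k) = F k' * F m + F (k' + 1) * F (m + 1) := by
    rw [show m + k = k' + m + 1 by omega, F_add]
  have e2 : F (m + 1 + k) = F k' * F (m + 1) + F (k' + 1) * F (m + 2) := by
    rw [show m + 1 + k = k' + (m + 1) + 1 by omega, F_add]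
  have e3 : F (m + 2 * k) = F k' * F (m + k) + F (k' + 1) * F (m + 1 + k) := by
    rw [show m + 2 * k = k' + (m + k) + 1 by omega, F_add, show m + k + 1 = m + 1 + k by ring]
  have e4 : F (k + 1) = F k' + F k := by
    rw [hk', show k' + 1 + 1 = k' + 2 by ring, F_rec]
  have e5 : L k = 2 * F (k + 1) - F k := rfl
  rw [e3, e2, e1, F_rec, e5, ← hk', e4]
  rw [e4] at hc
  linear_combination -(F m) * hc

theorem F_mul {k : ℕ} (hk : Even k) (m i : ℕ) : L k ∣ F (m + 2 * k * i) - (-1) ^ i * F m := by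
  induction i with
  | zero => simp
  | succ i ih =>
    have h := F_two hk (m + 2 * k * i)
    have e : m + 2 * k * (i + 1) = m + 2 * k * i + 2 * k := by ring
    rw [e]
    obtain ⟨c, hc⟩ := ih
    refine ⟨F (m + 2 * k * i + k) - c, ?_⟩
    rw [pow_succ]
    linear_combination h - hc

theorem L_dbl {k : ℕ} (hk : Even k) : L (2 * k) = L k ^ 2 - 2 := by
  have h := L_two hk 0
  rw [zero_add, zero_add, L0] at h
  linear_combination h

theorem L_pow8 (s : ℕ) : L (2 ^ (s + 3)) % 24 = 23 := by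
  induction s with
  | zero =>
    have h4 : L 4 = 7 := by
      rw [show 4 = 2 * 2 by norm_num, L_dbl (by decide), L2]; norm_num
    rw [show 2 ^ (0 + 3) = 2 * 4 by norm_num, L_dbl (by decide), h4]
    norm_num
  | succ s ih =>
    rw [show 2 ^ (s + 1 + 3) = 2 * 2 ^ (s + 3) by ring,
      L_dbl ⟨2 ^ (s + 2), by ring⟩]
    obtain ⟨c, hc⟩ : ∃ c, L (2 ^ (s + 3)) = 24 * c + 23 := ⟨L (2 ^ (s + 3)) / 24, by omega⟩
    rw [hc, show (24 * c + 23) ^ 2 - 2 = 24 * (24 * c ^ 2 + 46 * c + 21) + 23 by ring]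
    omega

theorem no_sq24 {b : ℕ} (hb : b % 24 = 23) {w : ℤ} (h : (b : ℤ) ∣ 9 * w ^ 2 + 24) : False := by
  have hodd : Odd b := Nat.odd_iff.2 (by omega)
  have h6 : jacobiSym (-6) b = -1 := by
    rw [jacobiSym.mod_right (-6) hodd]
    rw [show (4 * Int.natAbs (-6)) = 24 by norm_num, hb]
    norm_num
  have h4 : jacobiSym (2 ^ 2) b = 1 := by
    refine jacobiSym.sq_one' ?_
    have : Nat.Coprime 2 b := Nat.coprime_two_left.2 hodd
    exact this
  have h24 : jacobiSym (-24) b = -1 := by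
    rw [show (-24 : ℤ) = (-6) * 2 ^ 2 by norm_num, jacobiSym.mul_left, h6, h4]
    norm_num
  refine ZMod.nonsquare_of_jacobiSym_eq_neg_one h24 ⟨((3 * w : ℤ) : ZMod b), ?_⟩
  have h5 : (((9 * w ^ 2 + 24 : ℤ)) : ZMod b) = 0 := (ZMod.intCast_zmod_eq_zero_iff_dvd _ b).2 h
  push_cast at h5 ⊢
  linear_combination -h5

theorem four {N : ℕ} (hN : N % 720 = 6) {w : ℤ} (h : F N = 8 + 6 * w ^ 2) : N = 6 := by
  by_contra hne
  have hpos : N - 6 ≠ 0 := by omega
  obtain ⟨r, g, hg, hr⟩ := Nat.exists_eq_two_pow_mul_odd hpos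
  have hr4 : 4 ≤ r := by
    by_contra hcon
    push Not at hcon
    have h16 : 16 ∣ 2 ^ r * g := by rw [← hr]; omega
    obtain ⟨t, ht⟩ := hg
    interval_cases r <;> omega
  obtain ⟨s, rfl⟩ : ∃ s, r = s + 3 + 1 := ⟨r - 4, by omega⟩
  have hk : Even (2 ^ (s + 3)) := ⟨2 ^ (s + 2), by ring⟩
  have h1 := F_mul hk 6 g
  have e : 6 + 2 * 2 ^ (s + 3) * g = N := by
    have : 2 * 2 ^ (s + 3) * g = N - 6 := by rw [hr]; ring
    omega
  have h6 : F 6 = 8 := by unfold F; norm_num [Nat.fib_add_two]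
  rw [e, Odd.neg_one_pow hg, h6, h] at h1
  have hL := L_pow8 s
  have hL0 := L_pos (2 ^ (s + 3))
  obtain ⟨b, hb⟩ := Int.eq_ofNat_of_zero_le hL0.le
  rw [hb] at h1 hL
  refine no_sq24 (b := b) (w := w) (by omega) ?_
  have h2 : (b : ℤ) ∣ 2 * (9 * w ^ 2 + 24) := by
    obtain ⟨c, hc⟩ := h1
    exact ⟨3 * c, by linear_combination 3 * hc⟩
  have hcop : IsCoprime (b : ℤ) 2 := by
    refine Int.isCoprime_iff_gcd_eq_one.2 ?_
    have hodd : Odd b := Nat.odd_iff.2 (by omega)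
    exact (Nat.coprime_two_right.2 hodd)
  exact hcop.dvd_of_dvd_mul_left h2

theorem small {n : ℕ} (hn : 0 < n) {x y : ℤ} (h : 2 * (Nat.fib n : ℤ) = x ^ 3 + y ^ 3)
    (hxy : x + y ≤ 1000000) : n = 1 ∨ n = 2 ∨ n = 6 ∨ n = 7 := by
  have h0 := sum_pos hn h
  obtain ⟨d, hd⟩ := Int.eq_ofNat_of_zero_le h0.le
  rcases sieve (N := n) (d := d) (by omega) (by unfold DD; omega) h hd with h2 | ⟨h4, h5⟩
  · rcases partB hn h (by rw [hd, h2]; norm_num) with h6 | h6 | h6
    · exact Or.inl h6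
    · exact Or.inr (Or.inl h6)
    · exact Or.inr (Or.inr (Or.inr h6))
  · right; right; left
    refine four h5 (w := x - 2) ?_
    unfold F
    rw [h4] at hd
    obtain rfl : y = 4 - x := by push_cast at hd; linarith
    have e : x ^ 3 + (4 - x) ^ 3 = 2 * (8 + 6 * (x - 2) ^ 2) := by ring
    rw [e] at h
    linarith

theorem cofactor {n : ℕ} (hn : 0 < n) {x y : ℤ} (h : 2 * (Nat.fib n : ℤ) = x ^ 3 + y ^ 3)
    {k p : ℕ} (hp : p.Prime) (hk : k ≤ 500000) (hkp : Nat.fib n = k * p) : x + y ≤ 1000000 := by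
  have h0 := sum_pos hn h
  have hf : 0 < Nat.fib n := Nat.fib_pos.2 hn
  have h2 : 2 * ((k : ℤ) * p) = (x + y) * (x ^ 2 - x * y + y ^ 2) := by
    rw [hkp] at h
    push_cast at h
    linear_combination h
  set d := x + y with hd
  set m := x ^ 2 - x * y + y ^ 2 with hm
  have h4 : d ^ 2 ≤ 4 * m := by
    have : 4 * m = d ^ 2 + 3 * (x - y) ^ 2 := by rw [hm, hd]; ring
    rw [this]
    nlinarith [sq_nonneg (x - y)]
  have hp0 : (0 : ℤ) < p := by exact_mod_cast hp.pos
  have hk0 : (0 : ℤ) < k := by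
    have : 0 < k := by
      rcases Nat.eq_zero_or_pos k with rfl | h'
      · rw [hkp, zero_mul] at hf; omega
      · exact h'
    exact_mod_cast this
  have hk' : (k : ℤ) ≤ 500000 := by exact_mod_cast hk
  have hm0 : 0 < m := by nlinarith
  have hpp : Prime (p : ℤ) := Nat.prime_iff_prime_int.1 hp
  rcases hpp.dvd_or_dvd (⟨2 * k, by rw [← h2]; ring⟩ : (p : ℤ) ∣ d * m) with h5 | h5
  · obtain ⟨c, hc⟩ := h5
    have h6 : c * m = 2 * k := by
      have : (p : ℤ) * (c * m) = p * (2 * k) := by rw [← mul_assoc, ← hc, ← h2]; ring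
      exact mul_left_cancel₀ hp0.ne' this
    have hc0 : 0 < c := by
      by_contra h7
      push Not at h7
      have := mul_nonpos_of_nonneg_of_nonpos hp0.le h7
      rw [← hc] at this
      linarith
    have hmk : m ≤ 2 * k := by nlinarith
    nlinarith
  · obtain ⟨c, hc⟩ := h5
    have h6 : d * c = 2 * k := by
      have : (p : ℤ) * (d * c) = p * (2 * k) := by
        have : (p : ℤ) * (d * c) = d * m := by rw [hc]; ring
        rw [this, ← h2]; ring
      exact mul_left_cancel₀ hp0.ne' this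
    have hc0 : 0 < c := by
      by_contra h7
      push Not at h7
      have := mul_nonpos_of_nonneg_of_nonpos h0.le h7
      linarith
    nlinarith

end H21FC
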