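import Pool.Agent.H21.FC.Core

/-!
MP_572ea3_nt (helper21): `F n = 3 w ^ 2 + 1` only for `n = 1, 2, 7`; residues modulo 24; prime Fibonacci numbers.
-/

set_option autoImplicit false

namespace H21FC

theorem sq_of {ℓ a w : ℤ} (h : IsCoprime ℓ a) (he : ℓ * a = w ^ 2) (hp : 0 < ℓ) : ∃ t : ℤ, ℓ = t ^ 2 := by
  obtain ⟨t, ht | ht⟩ := Int.sq_of_isCoprime h he
  · exact ⟨t, ht⟩
  · exfalso
    have := sq_nonneg t
    linarith

theorem three_dvd {a ℓ w : ℤ} (h : a * ℓ = 3 * w ^ 2) (hl : ℓ % 3 ≠ 0) : ∃ c, a = 3 * c := by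
  have h1 : (3 : ℤ) ∣ a * ℓ := ⟨w ^ 2, h⟩
  rcases Int.prime_three.dvd_or_dvd h1 with h2 | h2
  · exact h2
  · exact absurd (Int.emod_eq_zero_of_dvd h2) hl

theorem F_sq {n : ℕ} {w : ℤ} (h : F n = 3 * w ^ 2 + 1) : n = 1 ∨ n = 2 ∨ n = 7 := by
  have hm : F n % 3 = 1 := by rw [h]; omega
  have hn : n % 8 = 1 ∨ n % 8 = 2 ∨ n % 8 = 7 := by
    have h1 := (mod3 n).1
    rw [hm] at h1
    have h3 : n % 8 = 0 ∨ n % 8 = 1 ∨ n % 8 = 2 ∨ n % 8 = 3 ∨ n % 8 = 4 ∨ n % 8 = 5 ∨ n % 8 = 6 ∨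
      n % 8 = 7 := by omega
    rcases h3 with h3 | h3 | h3 | h3 | h3 | h3 | h3 | h3
    · rw [h3] at h1; simp at h1
    · exact Or.inl h3
    · exact Or.inr (Or.inl h3)
    · rw [h3] at h1; simp at h1
    · rw [h3] at h1; simp at h1
    · rw [h3] at h1; simp at h1
    · rw [h3] at h1; simp at h1
    · exact Or.inr (Or.inr h3)
  rcases hn with hn | hn | hn
  · -- n = 8 j + 1
    obtain ⟨j, rfl⟩ : ∃ j, n = 4 * j + 4 * j + 1 := ⟨n / 8, by omega⟩
    rcases Nat.eq_zero_or_pos j with rfl | hj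
    · left; rfl
    exfalso
    have hc := cassini (4 * j)
    rw [show ((-1 : ℤ)) ^ (4 * j) = 1 by rw [pow_mul]; norm_num] at hc
    have hF := F_add (4 * j) (4 * j)
    have hL : L (4 * j + 1) = 2 * F (4 * j) + F (4 * j + 1) := by
      unfold L
      rw [show 4 * j + 1 + 1 = 4 * j + 2 by ring, F_rec]
      ring
    set a := F (4 * j)
    set b := F (4 * j + 1)
    have h1 : a * (2 * a + b) = 3 * w ^ 2 := by
      rw [hF] at h
      linear_combination h - hc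
    have h3 : (2 * a + b) % 3 ≠ 0 := by
      rw [← hL]
      have h4 := (mod3 (4 * j + 1)).2
      have h5 : (4 * j + 1) % 8 = 1 ∨ (4 * j + 1) % 8 = 5 := by omega
      rcases h5 with h5 | h5 <;> rw [h5] at h4 <;> simp at h4 <;> omega
    obtain ⟨c, hc3⟩ := three_dvd h1 h3
    have h6 : (2 * a + b) * c = w ^ 2 := by
      have : 3 * ((2 * a + b) * c) = 3 * w ^ 2 := by rw [← h1, hc3]; ring
      linarith
    have hcop : IsCoprime (2 * a + b) c := by
      refine ⟨2 * a + b - 5 * a, 15 * a, ?_⟩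
      have : 15 * a * c = 5 * a * a := by
        conv_rhs => rw [show 5 * a * a = 5 * a * (3 * c) by rw [← hc3]]
        ring
      rw [this]
      linear_combination hc
    obtain ⟨t, ht⟩ := sq_of hcop h6 (by rw [← hL]; exact L_pos _)
    exact L_sq1 j hj t (by rw [show 1 + 4 * j = 4 * j + 1 by ring, hL, ht])
  · -- n = 8 j + 2
    obtain ⟨j, rfl⟩ : ∃ j, n = 4 * j + (4 * j + 1) + 1 := ⟨n / 8, by omega⟩
    rcases Nat.eq_zero_or_pos j with rfl | hj
    · right; left; rfl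
    exfalso
    have hc := cassini (4 * j)
    rw [show ((-1 : ℤ)) ^ (4 * j) = 1 by rw [pow_mul]; norm_num] at hc
    have hF := F_add (4 * j) (4 * j + 1)
    have hr := F_rec (4 * j)
    rw [show 4 * j + 1 + 1 = 4 * j + 2 by ring, hr] at hF
    have hL : L (4 * j + 2) = F (4 * j) + 3 * F (4 * j + 1) := by
      unfold L
      rw [show 4 * j + 2 + 1 = (4 * j + 1) + 2 by ring, F_rec (4 * j + 1),
        show 4 * j + 1 + 1 = 4 * j + 2 by ring, hr]
      ring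
    have ha3 : F (4 * j) % 3 = 0 := by
      have h4 := (mod3 (4 * j)).1
      have h5 : (4 * j) % 8 = 0 ∨ (4 * j) % 8 = 4 := by omega
      rcases h5 with h5 | h5 <;> rw [h5] at h4 <;> simpa using h4
    have hsq : L (4 * j + 2) % 4 = 2 ∨ L (4 * j + 2) % 4 = 3 := by
      rw [L_mod4]
      have h5 : (4 * j + 2) % 6 = 0 ∨ (4 * j + 2) % 6 = 2 ∨ (4 * j + 2) % 6 = 4 := by omega
      rcases h5 with h5 | h5 | h5 <;> rw [h5] <;> simp
    have hLpos := L_pos (4 * j + 2)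
    set a := F (4 * j)
    set b := F (4 * j + 1)
    have h1 : a * (a + 3 * b) = 3 * w ^ 2 := by
      rw [hF] at h
      linear_combination h - hc
    obtain ⟨a', ha'⟩ : ∃ a', a = 3 * a' := ⟨a / 3, by omega⟩
    have h2 : w ^ 2 = 3 * (a' * (a' + b)) := by
      have : 3 * w ^ 2 = 3 * (3 * (a' * (a' + b))) := by rw [← h1, ha']; ring
      linarith
    have h3w : (3 : ℤ) ∣ w := by
      have : (3 : ℤ) ∣ w ^ 2 := ⟨_, h2⟩
      exact Int.prime_three.dvd_of_dvd_pow this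
    obtain ⟨w', rfl⟩ := h3w
    have h4 : a' * (a' + b) = 3 * w' ^ 2 := by
      have : 3 * (a' * (a' + b)) = 3 * (3 * w' ^ 2) := by rw [← h2]; ring
      linarith
    have hLc : L (4 * j + 2) = 3 * (a' + b) := by rw [hL, ha']; ring
    have hcpos : 0 < a' + b := by rw [hLc] at hLpos; linarith
    have hcop : IsCoprime (a' + b) a' := by
      refine ⟨a' + b - 5 * a', -5 * a', ?_⟩
      rw [ha'] at hc
      linear_combination hc
    rcases Int.prime_three.dvd_or_dvd (⟨_, h4⟩ : (3 : ℤ) ∣ a' * (a' + b)) with h5 | h5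
    · obtain ⟨d, hd⟩ := h5
      have h6 : (a' + b) * d = w' ^ 2 := by
        have : 3 * ((a' + b) * d) = 3 * w' ^ 2 := by linear_combination h4 - (a' + b) * hd
        linarith
      have hcop2 : IsCoprime (a' + b) d := by
        exact IsCoprime.of_isCoprime_of_dvd_right hcop ⟨3, by rw [hd]; ring⟩
      obtain ⟨t, ht⟩ := sq_of hcop2 h6 hcpos
      exact L_3sq j hj t (by rw [show 2 + 4 * j = 4 * j + 2 by ring, hLc, ht])
    · obtain ⟨d, hd⟩ := h5
      have h6 : d * a' = w' ^ 2 := by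
        have : 3 * (d * a') = 3 * w' ^ 2 := by rw [← h4, hd]; ring
        linarith
      have hcop2 : IsCoprime d a' := IsCoprime.of_isCoprime_of_dvd_left hcop ⟨3, by rw [hd]; ring⟩
      have hdpos : 0 < d := by
        rw [hd] at hcpos
        linarith
      obtain ⟨t, ht⟩ := sq_of hcop2 h6 hdpos
      rw [hLc, hd, ht] at hsq
      have h7 : t % 2 = 0 ∨ t % 2 = 1 := by omega
      rcases h7 with h7 | h7
      · obtain ⟨u, rfl⟩ : ∃ u, t = 2 * u := ⟨t / 2, by omega⟩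
        have e : 3 * (3 * (2 * u) ^ 2) = 4 * (9 * u ^ 2) := by ring
        rw [e] at hsq
        omega
      · obtain ⟨u, rfl⟩ : ∃ u, t = 2 * u + 1 := ⟨t / 2, by omega⟩
        have e : 3 * (3 * (2 * u + 1) ^ 2) = 4 * (9 * u ^ 2 + 9 * u + 2) + 1 := by ring
        rw [e] at hsq
        omega
  · -- n = 8 j + 7
    obtain ⟨j, rfl⟩ : ∃ j, n = (4 * j + 2) + (4 * j + 4) + 1 := ⟨n / 8, by omega⟩
    rcases Nat.eq_zero_or_pos j with rfl | hj
    · right; right; rfl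
    exfalso
    have hc := cassini (4 * j + 2)
    rw [show ((-1 : ℤ)) ^ (4 * j + 2) = 1 by rw [pow_add, pow_mul]; norm_num] at hc
    have hF := F_add (4 * j + 2) (4 * j + 4)
    have hr4 : F (4 * j + 4) = F (4 * j + 2) + F (4 * j + 3) := by
      rw [show 4 * j + 4 = (4 * j + 2) + 2 by ring, F_rec]
    have hr5 : F (4 * j + 5) = F (4 * j + 2) + 2 * F (4 * j + 3) := by
      rw [show 4 * j + 5 = (4 * j + 3) + 2 by ring, F_rec, show 4 * j + 3 + 1 = 4 * j + 4 by ring, hr4]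
      ring
    have hL : L (4 * j + 3) = 2 * F (4 * j + 2) + F (4 * j + 3) := by
      unfold L
      rw [show 4 * j + 3 + 1 = 4 * j + 4 by ring, hr4]
      ring
    rw [show 4 * j + 2 + 1 = 4 * j + 3 by ring] at hc hF
    rw [show 4 * j + 4 + 1 = 4 * j + 5 by ring, hr4, hr5] at hF
    set a := F (4 * j + 2)
    set b := F (4 * j + 3)
    have h1 : (a + b) * (2 * a + b) = 3 * w ^ 2 := by
      rw [hF] at h
      linear_combination h - hc
    have h3 : (2 * a + b) % 3 ≠ 0 := by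
      rw [← hL]
      have h4 := (mod3 (4 * j + 3)).2
      have h5 : (4 * j + 3) % 8 = 3 ∨ (4 * j + 3) % 8 = 7 := by omega
      rcases h5 with h5 | h5 <;> rw [h5] at h4 <;> simp at h4 <;> omega
    obtain ⟨c, hc3⟩ := three_dvd h1 h3
    have h6 : (2 * a + b) * c = w ^ 2 := by
      have : 3 * ((2 * a + b) * c) = 3 * w ^ 2 := by rw [← h1, hc3]; ring
      linarith
    have hcop : IsCoprime (2 * a + b) c := by
      refine ⟨2 * a + b - 5 * (a + b), 15 * (a + b), ?_⟩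
      have : 15 * (a + b) * c = 5 * (a + b) * (a + b) := by
        conv_rhs => rw [show 5 * (a + b) * (a + b) = 5 * (a + b) * (3 * c) by rw [← hc3]]
        ring
      rw [this]
      linear_combination hc
    obtain ⟨t, ht⟩ := sq_of hcop h6 (by rw [← hL]; exact L_pos _)
    exact L_sq3 j hj t (by rw [show 3 + 4 * j = 4 * j + 3 by ring, hL, ht])

/-! ### residues -/

theorem fib_mod (n : ℕ) : Nat.fib (n + 48) % 63 = Nat.fib n % 63 := by
  have h : Nat.fib (n + 48) = Nat.fib n * Nat.fib 47 + Nat.fib (n + 1) * Nat.fib 48 := by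
    rw [show n + 48 = n + 47 + 1 by ring, Nat.fib_add]
  have h47 : Nat.fib 47 = 2971215073 := by norm_num
  have h48 : Nat.fib 48 = 4807526976 := by norm_num
  rw [h, h47, h48]
  omega

theorem fib_mod' (n : ℕ) : Nat.fib n % 63 = Nat.fib (n % 48) % 63 := by
  have h : ∀ q r : ℕ, Nat.fib (r + 48 * q) % 63 = Nat.fib r % 63 := by
    intro q
    induction q with
    | zero => intro r; simp
    | succ q ih =>
      intro r
      rw [show r + 48 * (q + 1) = (r + 48 * q) + 48 by ring, fib_mod, ih]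
  have e : n = n % 48 + 48 * (n / 48) := by omega
  conv_lhs => rw [e]
  exact h _ _

theorem cube9 : ∀ x y : ZMod 9, x ^ 3 + y ^ 3 ≠ 3 ∧ x ^ 3 + y ^ 3 ≠ 4 ∧ x ^ 3 + y ^ 3 ≠ 5 ∧
    x ^ 3 + y ^ 3 ≠ 6 := by decide

theorem cube7 : ∀ x y : ZMod 7, x ^ 3 + y ^ 3 ≠ 3 ∧ x ^ 3 + y ^ 3 ≠ 4 := by decide

theorem two_fib_mod {n : ℕ} {x y : ℤ} (h : 2 * (Nat.fib n : ℤ) = x ^ 3 + y ^ 3) :
    (2 * Nat.fib n) % 9 ≠ 3 ∧ (2 * Nat.fib n) % 9 ≠ 4 ∧ (2 * Nat.fib n) % 9 ≠ 5 ∧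
    (2 * Nat.fib n) % 9 ≠ 6 ∧ (2 * Nat.fib n) % 7 ≠ 3 ∧ (2 * Nat.fib n) % 7 ≠ 4 := by
  have h9 : ((2 * Nat.fib n : ℕ) : ZMod 9) = (x : ZMod 9) ^ 3 + (y : ZMod 9) ^ 3 := by
    have := congrArg (Int.cast : ℤ → ZMod 9) h
    push_cast at this ⊢
    exact this
  have h7 : ((2 * Nat.fib n : ℕ) : ZMod 7) = (x : ZMod 7) ^ 3 + (y : ZMod 7) ^ 3 := by
    have := congrArg (Int.cast : ℤ → ZMod 7) h
    push_cast at this ⊢
    exact this
  obtain ⟨a3, a4, a5, a6⟩ := cube9 x y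
  obtain ⟨b3, b4⟩ := cube7 x y
  have k9 : ∀ r : ℕ, (2 * Nat.fib n) % 9 = r → (x : ZMod 9) ^ 3 + (y : ZMod 9) ^ 3 = (r : ZMod 9) := by
    intro r hr
    rw [← h9, ← hr, ZMod.natCast_mod]
  have k7 : ∀ r : ℕ, (2 * Nat.fib n) % 7 = r → (x : ZMod 7) ^ 3 + (y : ZMod 7) ^ 3 = (r : ZMod 7) := by
    intro r hr
    rw [← h7, ← hr, ZMod.natCast_mod]
  exact ⟨fun h => a3 (k9 3 h), fun h => a4 (k9 4 h), fun h => a5 (k9 5 h), fun h => a6 (k9 6 h),
    fun h => b3 (k7 3 h), fun h => b4 (k7 4 h)⟩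

theorem res48 : ∀ r < 48, ((2 * Nat.fib r) % 9 ≠ 3 ∧ (2 * Nat.fib r) % 9 ≠ 4 ∧ (2 * Nat.fib r) % 9 ≠ 5 ∧
    (2 * Nat.fib r) % 9 ≠ 6 ∧ (2 * Nat.fib r) % 7 ≠ 3 ∧ (2 * Nat.fib r) % 7 ≠ 4) →
    r % 24 ∈ ({0, 1, 2, 6, 7, 10, 12, 14, 17, 18, 22, 23} : Finset ℕ) := by
  decide +kernel

theorem partA {n : ℕ} {x y : ℤ} (h : 2 * (Nat.fib n : ℤ) = x ^ 3 + y ^ 3) :
    n % 24 ∈ ({0, 1, 2, 6, 7, 10, 12, 14, 17, 18, 22, 23} : Finset ℕ) := by
  have h1 := two_fib_mod h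
  have h2 := fib_mod' n
  have e9 : (2 * Nat.fib n) % 9 = (2 * Nat.fib (n % 48)) % 9 := by omega
  have e7 : (2 * Nat.fib n) % 7 = (2 * Nat.fib (n % 48)) % 7 := by omega
  rw [e9, e7] at h1
  have h3 := res48 (n % 48) (Nat.mod_lt _ (by norm_num)) h1
  rw [show n % 48 % 24 = n % 24 by omega] at h3
  exact h3

theorem sum_pos {n : ℕ} (hn : 0 < n) {x y : ℤ} (h : 2 * (Nat.fib n : ℤ) = x ^ 3 + y ^ 3) :
    0 < x + y := by
  have h1 : (0 : ℤ) < Nat.fib n := by exact_mod_cast Nat.fib_pos.2 hn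
  have h2 : x ^ 3 + y ^ 3 = (x + y) * (x ^ 2 - x * y + y ^ 2) := by ring
  have h3 : 0 ≤ x ^ 2 - x * y + y ^ 2 := by nlinarith [sq_nonneg (x - y), sq_nonneg x, sq_nonneg y]
  by_contra hcon
  push Not at hcon
  have := mul_nonpos_of_nonpos_of_nonneg hcon h3
  rw [← h2, ← h] at this
  linarith

theorem partB {n : ℕ} (hn : 0 < n) {x y : ℤ} (h : 2 * (Nat.fib n : ℤ) = x ^ 3 + y ^ 3)
    (hxy : x + y ≤ 2) : n = 1 ∨ n = 2 ∨ n = 7 := by
  have h0 := sum_pos hn h
  have h1 : x + y = 1 ∨ x + y = 2 := by omega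
  rcases h1 with h1 | h1
  · exfalso
    obtain rfl : y = 1 - x := by linarith
    have e : x ^ 3 + (1 - x) ^ 3 = 3 * (x * (x - 1)) + 1 := by ring
    rw [e] at h
    have h2 : Even (x * (x - 1)) := Int.even_mul_pred_self x
    obtain ⟨t, ht⟩ := h2
    rw [ht] at h
    omega
  · obtain rfl : y = 2 - x := by linarith
    refine F_sq (w := x - 1) ?_
    unfold F
    have e : x ^ 3 + (2 - x) ^ 3 = 2 * (3 * (x - 1) ^ 2 + 1) := by ring
    rw [e] at h
    linarith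

theorem partC {n : ℕ} (hp : (Nat.fib n).Prime) {x y : ℤ}
    (h : 2 * (Nat.fib n : ℤ) = x ^ 3 + y ^ 3) : x + y ≤ 2 := by
  have hn : 0 < n := by
    rcases Nat.eq_zero_or_pos n with rfl | h
    · exact absurd hp (by simp [Nat.not_prime_zero])
    · exact h
  have h0 := sum_pos hn h
  set p := Nat.fib n
  set d := x + y with hd
  have h2 : 2 * (p : ℤ) = d * (x ^ 2 - x * y + y ^ 2) := by rw [h, hd]; ring
  set m := x ^ 2 - x * y + y ^ 2 with hm
  have h4 : d ^ 2 ≤ 4 * m := by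
    have : 4 * m = d ^ 2 + 3 * (x - y) ^ 2 := by rw [hm, hd]; ring
    rw [this]
    nlinarith [sq_nonneg (x - y)]
  have hp0 : (0 : ℤ) < p := by exact_mod_cast hp.pos
  have hpp : Prime (p : ℤ) := Nat.prime_iff_prime_int.1 hp
  by_contra hcon
  push Not at hcon
  rcases hpp.dvd_or_dvd (⟨2, by rw [← h2]; ring⟩ : (p : ℤ) ∣ d * m) with h5 | h5
  · -- p divides d: d = p c, c m = 2
    obtain ⟨c, hc⟩ := h5
    have h6 : c * m = 2 := by
      have : (p : ℤ) * (c * m) = p * 2 := by rw [← mul_assoc, ← hc, ← h2]; ring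
      exact mul_left_cancel₀ hp0.ne' this
    have hc0 : 0 < c := by
      by_contra h7
      push Not at h7
      have := mul_nonpos_of_nonneg_of_nonpos hp0.le h7
      rw [← hc] at this
      linarith
    have hm0 : 0 < m := by
      by_contra h7
      push Not at h7
      have := mul_nonpos_of_nonneg_of_nonpos hc0.le h7
      linarith
    have hm2 : m ≤ 2 := by nlinarith
    have hd2 : d ≤ 2 := by nlinarith
    linarith
  · obtain ⟨c, hc⟩ := h5
    have h6 : d * c = 2 := by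
      have : (p : ℤ) * (d * c) = p * 2 := by
        have : (p : ℤ) * (d * c) = d * m := by rw [hc]; ring
        rw [this, ← h2]; ring
      exact mul_left_cancel₀ hp0.ne' this
    have hc0 : 0 < c := by
      by_contra h7
      push Not at h7
      have := mul_nonpos_of_nonneg_of_nonpos h0.le h7
      linarith
    nlinarith

theorem main :
    (∀ n : ℕ, (∃ x y : ℤ, 2 * (Nat.fib n : ℤ) = x ^ 3 + y ^ 3) →
      n % 24 ∈ ({0, 1, 2, 6, 7, 10, 12, 14, 17, 18, 22, 23} : Finset ℕ)) ∧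
    (∀ n : ℕ, 0 < n → ((∃ x y : ℤ, 2 * (Nat.fib n : ℤ) = x ^ 3 + y ^ 3 ∧ x + y ≤ 2) ↔
      n = 1 ∨ n = 2 ∨ n = 7)) ∧
    (∀ n : ℕ, (Nat.fib n).Prime → ((∃ x y : ℤ, 2 * (Nat.fib n : ℤ) = x ^ 3 + y ^ 3) ↔ n = 7)) := by
  refine ⟨?_, ?_, ?_⟩
  · rintro n ⟨x, y, h⟩
    exact partA h
  · intro n hn
    constructor
    · rintro ⟨x, y, h, hxy⟩
      exact partB hn h hxy
    · rintro (rfl | rfl | rfl)
      · exact ⟨1, 1, by norm_num, by norm_num⟩
      · exact ⟨1, 1, by norm_num, by norm_num⟩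
      · exact ⟨3, -1, by norm_num [Nat.fib_add_two], by norm_num⟩
  · intro n hp
    constructor
    · rintro ⟨x, y, h⟩
      have hn : 0 < n := by
        rcases Nat.eq_zero_or_pos n with rfl | h
        · exact absurd hp (by simp [Nat.not_prime_zero])
        · exact h
      rcases partB hn h (partC hp h) with rfl | rfl | rfl
      · exact absurd hp (by simp [Nat.not_prime_one])
      · exact absurd hp (by simp [Nat.not_prime_one])
      · rfl
    · rintro rfl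
      exact ⟨3, -1, by norm_num [Nat.fib_add_two]⟩

end H21FC
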