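import Pool.Agent.H21.FC.Tab

/-!
MP_572ea3_nt: the residue sieve (helper21). All functions are evaluated by the kernel on numerals.
-/

set_option autoImplicit false

namespace H21FC

/-- the `i`-th field of `w` bits of `T` -/
def fld (w T i : ℕ) : ℕ := (T >>> (w * i)) % 2 ^ w

/-- `p i` for all `i < n` -/
noncomputable def allB (p : ℕ → Bool) (n : ℕ) : Bool :=
  Nat.rec true (fun k ih => p k && ih) n

theorem allB_sound {p : ℕ → Bool} {n : ℕ} (h : allB p n = true) : ∀ i < n, p i = true := by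
  induction n with
  | zero => intro i hi; omega
  | succ n ih =>
    have h' : (p n && allB p n) = true := h
    rw [Bool.and_eq_true] at h'
    intro i hi
    rcases Nat.lt_succ_iff_lt_or_eq.1 hi with h1 | h1
    · exact ih h'.2 i h1
    · rw [h1]; exact h'.1

/-- the table `T` of the Fibonacci numbers modulo `q`, period `π` -/
noncomputable def chkF (q π T : ℕ) : Bool :=
  Nat.blt 1 π && (Nat.beq (fld 12 T 0) 0 && (Nat.beq (fld 12 T 1) (1 % q) &&
    allB (fun i => Nat.beq (fld 12 T ((i + 2) % π)) ((fld 12 T i + fld 12 T ((i + 1) % π)) % q)) π))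

theorem chkF_sound {q π T : ℕ} (h : chkF q π T = true) (n : ℕ) :
    fld 12 T (n % π) = Nat.fib n % q := by
  unfold chkF at h
  simp only [Bool.and_eq_true, Nat.blt_eq, Nat.beq_eq] at h
  obtain ⟨h0, h1, h2, h3⟩ := h
  have h4 := fun i hi => Nat.eq_of_beq_eq_true (allB_sound h3 i hi)
  have hπ : 0 < π := by omega
  induction n using Nat.strong_induction_on with
  | _ n ih =>
    match n with
    | 0 => rw [Nat.zero_mod, h1, Nat.fib_zero, Nat.zero_mod]
    | 1 => rw [Nat.mod_eq_of_lt h0, h2, Nat.fib_one]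
    | n + 2 =>
      have e1 := ih n (by omega)
      have e2 := ih (n + 1) (by omega)
      have e3 := h4 (n % π) (Nat.mod_lt _ hπ)
      rw [Nat.mod_add_mod, Nat.mod_add_mod, e1, e2] at e3
      rw [e3, Nat.fib_add_two, ← Nat.add_mod]

/-- the table of the values `x ^ 3 + (d - x) ^ 3` modulo `q` -/
noncomputable def chkV (q V : ℕ) : Bool :=
  allB (fun x => allB (fun d =>
    Nat.testBit V (q * ((x ^ 3 + (d + (q - x)) ^ 3) % q) + d)) q) q

theorem fld_testBit (w T i j : ℕ) (hj : j < w) : (fld w T i).testBit j = T.testBit (w * i + j) := by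
  unfold fld
  rw [Nat.testBit_mod_two_pow, Nat.testBit_shiftRight]
  simp [hj]

theorem chkV_sound {q V : ℕ} (hq : 0 < q) (h : chkV q V = true) {N d : ℕ} {x y : ℤ}
    (he : (N : ℤ) = x ^ 3 + y ^ 3) (hd : x + y = d) :
    (fld q V (N % q)).testBit (d % q) = true := by
  have hq' : (0 : ℤ) < q := by exact_mod_cast hq
  obtain ⟨X, hX⟩ := Int.eq_ofNat_of_zero_le (Int.emod_nonneg x hq'.ne')
  have hXq : X < q := by
    have := Int.emod_lt_of_pos x hq'
    rw [hX] at this
    exact_mod_cast this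
  have h1 := allB_sound (allB_sound h X hXq) (d % q) (Nat.mod_lt _ hq)
  rw [fld_testBit _ _ _ _ (Nat.mod_lt _ hq)]
  have h2 : (X ^ 3 + (d % q + (q - X)) ^ 3) % q = N % q := by
    have hx : (X : ℤ) ≡ x [ZMOD q] := by
      have := Int.mod_modEq x q
      rw [hX] at this
      exact this
    have hc : (((X ^ 3 + (d % q + (q - X)) ^ 3 : ℕ)) : ℤ) ≡ ((N : ℕ) : ℤ) [ZMOD q] := by
      push_cast [Nat.cast_sub hXq.le]
      rw [he]
      have hdm : ((d : ℤ) % q) ≡ d [ZMOD q] := Int.mod_modEq _ _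
      have h3 : ((d : ℤ) % q + (q - X)) ≡ y [ZMOD q] := by
        have h4 : ((d : ℤ) % q + (q - X)) ≡ (d + (0 - x)) [ZMOD q] := by
          refine Int.ModEq.add hdm (Int.ModEq.sub ?_ hx)
          exact (Int.modEq_zero_iff_dvd.2 (dvd_refl _))
        have h5 : (d : ℤ) + (0 - x) = y := by rw [← hd]; ring
        rw [h5] at h4
        exact h4
      exact Int.ModEq.add (hx.pow 3) (h3.pow 3)
    exact (Int.natCast_modEq_iff.1 hc)
  rw [h2] at h1
  exact h1

/-- the squares modulo `q` -/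
noncomputable def chkS (q S : ℕ) : Bool := allB (fun s => Nat.testBit S ((s * s) % q)) q

/-- the test of the pair `(n, d)` by the prime `q` -/
def kl (q π T S n d : ℕ) : Bool :=
  bif Nat.beq (d % q) 0 then Nat.blt 0 (fld 12 T (n % π))
  else !(Nat.testBit S ((3 * (d % q) * (8 * fld 12 T (n % π) + (q - (d % q) ^ 3 % q))) % q))

theorem kl_sound {q π T S M : ℕ} (hq : q.Prime) (hq2 : q ≠ 2) (hF : chkF q π T = true)
    (hS : chkS q S = true) (hM : π ∣ M) {N d : ℕ} {x y : ℤ}
    (he : 2 * (Nat.fib N : ℤ) = x ^ 3 + y ^ 3) (hd : x + y = d) (hk : kl q π T S (N % M) d = true) :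
    False := by
  have hq0 : 0 < q := hq.pos
  unfold kl at hk
  rw [Nat.mod_mod_of_dvd _ hM, chkF_sound hF] at hk
  have e8 : 8 * (Nat.fib N : ℤ) = (d : ℤ) ^ 3 + 3 * d * (x - y) ^ 2 := by
    rw [← hd]
    linear_combination 4 * he
  by_cases hdq : d % q = 0
  · rw [hdq, show Nat.beq 0 0 = true from rfl, cond_true, Nat.blt_eq] at hk
    have h1 : (q : ℤ) ∣ (d : ℤ) := by exact_mod_cast Nat.dvd_of_mod_eq_zero hdq
    have h2 : (q : ℤ) ∣ 8 * (Nat.fib N : ℤ) := by
      rw [e8]
      exact dvd_add (dvd_pow h1 (by norm_num)) (Dvd.dvd.mul_right (Dvd.dvd.mul_left h1 3) _)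
    have h3 : q ∣ 2 ^ 3 * Nat.fib N := by exact_mod_cast h2
    rcases hq.dvd_mul.1 h3 with h4 | h4
    · exact hq2 ((Nat.prime_dvd_prime_iff_eq hq Nat.prime_two).1 (hq.dvd_of_dvd_pow h4))
    · rw [Nat.mod_eq_zero_of_dvd h4] at hk
      omega
  · have hb : Nat.beq (d % q) 0 = false :=
      Bool.eq_false_iff.2 (fun h => hdq (Nat.eq_of_beq_eq_true h))
    rw [hb, cond_false, Bool.not_eq_true'] at hk
    -- the argument is a square
    have hq' : (0 : ℤ) < q := by exact_mod_cast hq0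
    obtain ⟨s, hs⟩ := Int.eq_ofNat_of_zero_le (Int.emod_nonneg (3 * (d : ℤ) * (x - y)) hq'.ne')
    have hsq : s < q := by
      have := Int.emod_lt_of_pos (3 * (d : ℤ) * (x - y)) hq'
      rw [hs] at this
      exact_mod_cast this
    have h1 := allB_sound hS s hsq
    have h2 : (s * s) % q =
        (3 * (d % q) * (8 * (Nat.fib N % q) + (q - (d % q) ^ 3 % q))) % q := by
      have hsm : (s : ℤ) ≡ 3 * (d : ℤ) * (x - y) [ZMOD q] := by
        have := Int.mod_modEq (3 * (d : ℤ) * (x - y)) q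
        rw [hs] at this
        exact this
      have hlt : (d % q) ^ 3 % q ≤ q := (Nat.mod_lt _ hq0).le
      have hc : (((s * s : ℕ)) : ℤ) ≡
          ((3 * (d % q) * (8 * (Nat.fib N % q) + (q - (d % q) ^ 3 % q)) : ℕ) : ℤ) [ZMOD q] := by
        push_cast [Nat.cast_sub hlt]
        have hdm : ((d : ℤ) % q) ≡ d [ZMOD q] := Int.mod_modEq _ _
        have hfm : ((Nat.fib N : ℤ) % q) ≡ Nat.fib N [ZMOD q] := Int.mod_modEq _ _
        have h3 : ((d : ℤ) % q) ^ 3 % q ≡ (d : ℤ) ^ 3 [ZMOD q] :=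
          (Int.mod_modEq _ _).trans (hdm.pow 3)
        have h4 : (3 * ((d : ℤ) % q) * (8 * ((Nat.fib N : ℤ) % q) + (q - ((d : ℤ) % q) ^ 3 % q))) ≡
            3 * (d : ℤ) * (8 * Nat.fib N + (0 - (d : ℤ) ^ 3)) [ZMOD q] := by
          refine Int.ModEq.mul (hdm.mul_left 3) (Int.ModEq.add (hfm.mul_left 8) (Int.ModEq.sub ?_ h3))
          exact (Int.modEq_zero_iff_dvd.2 (dvd_refl _))
        have h5 : 3 * (d : ℤ) * (8 * Nat.fib N + (0 - (d : ℤ) ^ 3)) =
            (3 * (d : ℤ) * (x - y)) * (3 * (d : ℤ) * (x - y)) := by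
          linear_combination 3 * (d : ℤ) * e8
        rw [h5] at h4
        exact (hsm.mul hsm).trans h4.symm
      exact Int.natCast_modEq_iff.1 hc
    rw [h2] at h1
    rw [h1] at hk
    exact Bool.noConfusion hk

/-- `1 + 2^q + 2^(2q) + ...`, `k` terms -/
def rep (q k : ℕ) : ℕ := (2 ^ (q * k) - 1) / (2 ^ q - 1)

theorem rep_zero {q : ℕ} : rep q 0 = 0 := by simp [rep]

theorem rep_succ {q : ℕ} (hq : 0 < q) (k : ℕ) : rep q (k + 1) = 2 ^ q * rep q k + 1 := by
  have h2 : 2 ≤ 2 ^ q := by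
    calc 2 = 2 ^ 1 := by norm_num
      _ ≤ 2 ^ q := Nat.pow_le_pow_right (by norm_num) hq
  have hd : ∀ k, (2 ^ q - 1) ∣ (2 ^ (q * k) - 1) := by
    intro k
    have := Nat.sub_dvd_pow_sub_pow (2 ^ q) 1 k
    rw [one_pow, ← pow_mul] at this
    exact this
  have hp : ∀ k, 1 ≤ 2 ^ (q * k) := fun k => Nat.one_le_two_pow
  have e1 := Nat.div_mul_cancel (hd k)
  have e2 := Nat.div_mul_cancel (hd (k + 1))
  have h3 : 0 < 2 ^ q - 1 := by omega
  apply Nat.eq_of_mul_eq_mul_right h3
  unfold rep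
  rw [e2, add_mul, mul_assoc, e1, Nat.mul_sub, ← pow_add, one_mul, mul_one,
    show q + q * k = q * (k + 1) by ring]
  have h4 : 2 ^ q ≤ 2 ^ (q * (k + 1)) := Nat.pow_le_pow_right (by norm_num) (by nlinarith)
  omega

theorem rep_testBit {q m : ℕ} (hq : 0 < q) (hm : m < 2 ^ q) (k : ℕ) :
    ∀ j, j < q * k → (m * rep q k).testBit j = m.testBit (j % q) := by
  induction k with
  | zero => intro j hj; omega
  | succ k ih =>
    intro j hj
    have e : m * rep q (k + 1) = 2 ^ q * (m * rep q k) + m := by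
      rw [rep_succ hq]; ring
    rw [e, Nat.testBit_two_pow_mul_add _ hm]
    split_ifs with h
    · rw [Nat.mod_eq_of_lt h]
    · push Not at h
      rw [ih (j - q) (by rw [Nat.mul_succ] at hj; omega), Nat.mod_eq_sub_mod h]

/-- the set of the admissible `d < D`, as a bit mask -/
def big (D q V T π n : ℕ) : ℕ := fld q V ((2 * fld 12 T (n % π)) % q) * rep q (D / q + 1)

theorem big_sound {D q V T π M : ℕ} (hq : 0 < q) (hF : chkF q π T = true) (hV : chkV q V = true)
    (hM : π ∣ M) {N d : ℕ} {x y : ℤ} (hdD : d < D)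
    (he : 2 * (Nat.fib N : ℤ) = x ^ 3 + y ^ 3) (hd : x + y = d) :
    (big D q V T π (N % M)).testBit d = true := by
  unfold big
  rw [Nat.mod_mod_of_dvd _ hM, chkF_sound hF]
  rw [rep_testBit hq (by unfold fld; exact Nat.mod_lt _ (by positivity))]
  · have h := chkV_sound hq hV (N := 2 * Nat.fib N) (by push_cast; exact he) hd
    rw [Nat.mul_mod, Nat.mod_mod, ← Nat.mul_mod]
    exact h
  · have := Nat.div_add_mod D q
    have h2 := Nat.mod_lt D hq
    rw [Nat.mul_succ]
    omega

/-- all elements of the set `acc` (bits `< 2 ^ k`), shifted by `base`, satisfy `P` -/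
noncomputable def ext (P : ℕ → Bool) (k : ℕ) : ℕ → ℕ → Bool :=
  Nat.rec (fun acc base => Nat.rec true (fun _ _ => P base) acc)
    (fun k ih acc base => Nat.rec true (fun m _ =>
      ih ((m + 1) % 2 ^ (2 ^ k)) base && ih ((m + 1) >>> (2 ^ k)) (base + 2 ^ k)) acc) k

theorem ext_sound {P : ℕ → Bool} (k : ℕ) : ∀ (acc base : ℕ), ext P k acc base = true →
    ∀ i, i < 2 ^ k → acc.testBit i = true → P (base + i) = true := by
  induction k with
  | zero =>
    intro acc base h i hi hb
    have : i = 0 := by omega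
    subst this
    match acc with
    | 0 => simp at hb
    | m + 1 => exact h
  | succ k ih =>
    intro acc base h i hi hb
    match acc with
    | 0 => simp at hb
    | m + 1 =>
      have h' : (ext P k ((m + 1) % 2 ^ (2 ^ k)) base &&
        ext P k ((m + 1) >>> (2 ^ k)) (base + 2 ^ k)) = true := h
      rw [Bool.and_eq_true] at h'
      by_cases hlt : i < 2 ^ k
      · refine ih _ _ h'.1 i hlt ?_
        rw [Nat.testBit_mod_two_pow, hb]
        simp [hlt]
      · push Not at hlt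
        have h2 := ih _ _ h'.2 (i - 2 ^ k) (by rw [pow_succ] at hi; omega) (by
          rw [Nat.testBit_shiftRight, Nat.add_sub_cancel' hlt]
          exact hb)
        rw [show base + 2 ^ k + (i - 2 ^ k) = base + i by omega] at h2
        exact h2

end H21FC
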