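import Pool.Agent.H21.FC.Fin

/-!
MP_572ea3_nt: forced prime factors of `x + y`, ranks of apparition, the case `x + y = k * 5 ^ c` (helper21).
-/

set_option autoImplicit false
set_option maxRecDepth 100000

namespace H21FC

/-- a prime `p = 2` modulo `3` dividing `x ^ 3 + y ^ 3` divides `x + y` -/
theorem forced {p : ℕ} (hp : p.Prime) (h3 : p % 3 = 2) {x y : ℤ}
    (h : (p : ℤ) ∣ x ^ 3 + y ^ 3) : (p : ℤ) ∣ x + y := by
  have : Fact p.Prime := ⟨hp⟩
  have h1 : ((x : ZMod p)) ^ 3 = (-(y : ZMod p)) ^ 3 := by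
    have := (ZMod.intCast_zmod_eq_zero_iff_dvd (x ^ 3 + y ^ 3) p).2 h
    push_cast at this
    linear_combination this
  have key : ∀ a : ZMod p, a ^ (3 * ((2 * p - 1) / 3)) = a := by
    intro a
    have e : 3 * ((2 * p - 1) / 3) = p + (p - 1) := by omega
    rw [e, pow_add, ZMod.pow_card, ← pow_succ', Nat.sub_add_cancel hp.one_le, ZMod.pow_card]
  have h2 : (x : ZMod p) = -(y : ZMod p) := by
    rw [← key (x : ZMod p), ← key (-(y : ZMod p)), pow_mul, pow_mul, h1]
  refine (ZMod.intCast_zmod_eq_zero_iff_dvd (x + y) p).1 ?_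
  push_cast
  rw [h2]
  ring

/-- rank of apparition -/
theorem rank {q z n : ℕ} (hz0 : 0 < z) (hz : q ∣ Nat.fib z)
    (hmin : ∀ g < z, g ∣ z → 0 < g → ¬ q ∣ Nat.fib g) (h : q ∣ Nat.fib n) : z ∣ n := by
  have h1 : q ∣ Nat.fib (Nat.gcd n z) := by
    rw [Nat.fib_gcd]
    exact Nat.dvd_gcd h hz
  have h2 : 0 < Nat.gcd n z := Nat.gcd_pos_of_pos_right n hz0
  have h3 : Nat.gcd n z ∣ z := Nat.gcd_dvd_right n z
  have h4 : Nat.gcd n z ≤ z := Nat.le_of_dvd hz0 h3
  rcases Nat.lt_or_ge (Nat.gcd n z) z with h5 | h5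
  · exact absurd h1 (hmin _ h5 h3 h2)
  · rw [← le_antisymm h4 h5]
    exact Nat.gcd_dvd_left n z

/-- kernel test for `rank` -/
noncomputable def chkR (q z : ℕ) : Bool :=
  Nat.blt 0 z && (Nat.beq (Nat.fib z % q) 0 &&
    allB (fun g => Nat.beq g 0 || ((!Nat.beq (z % g) 0) || !(Nat.beq (Nat.fib g % q) 0))) z)

theorem rank' {q z n : ℕ} (hc : chkR q z = true) (h : q ∣ Nat.fib n) : z ∣ n := by
  unfold chkR at hc
  rw [Bool.and_eq_true, Bool.and_eq_true, Nat.blt_eq] at hc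
  obtain ⟨h0, h1, h2⟩ := hc
  refine rank h0 (Nat.dvd_of_mod_eq_zero (Nat.eq_of_beq_eq_true h1)) ?_ h
  intro g hg hgz hg0 hd
  have h3 := allB_sound h2 g hg
  rw [Bool.or_eq_true, Bool.or_eq_true] at h3
  rcases h3 with h4 | h4 | h4
  · have := Nat.eq_of_beq_eq_true h4
    omega
  · rw [Nat.mod_eq_zero_of_dvd hgz] at h4
    exact Bool.noConfusion h4
  · rw [Nat.mod_eq_zero_of_dvd hd] at h4
    exact Bool.noConfusion h4

/-- `q` coprime to `2`, `q ∣ 2 F` -/
theorem rank2 {q z n : ℕ} (hq : Nat.Coprime q 2) (hc : chkR q z = true)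
    (h : q ∣ 2 * Nat.fib n) : z ∣ n :=
  rank' hc (hq.dvd_of_dvd_mul_left h)

/-- `p ^ k ∣ d ∣ N`, `p ^ (j + 1)` does not divide `N` -/
theorem hb {N d p j k : ℕ} (hd : d ∣ N) (hn : ¬ p ^ (j + 1) ∣ N) (hk : p ^ k ∣ d) :
    p ^ k ∣ p ^ j := by
  have : k ≤ j := by
    by_contra h
    push Not at h
    exact hn ((pow_dvd_pow p h).trans (hk.trans hd))
  exact pow_dvd_pow p this

theorem ex_prime3 (N : ℕ) (h : N % 3 = 2) : ∃ p : ℕ, p.Prime ∧ p ∣ N ∧ p % 3 = 2 := by
  induction N using Nat.strong_induction_on with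
  | _ N ih =>
    have h1 : N ≠ 1 := by omega
    have hp := Nat.minFac_prime h1
    obtain ⟨c, hc⟩ := Nat.minFac_dvd N
    by_cases hp3 : N.minFac % 3 = 2
    · exact ⟨N.minFac, hp, Nat.minFac_dvd N, hp3⟩
    · have hm : N % 3 = (N.minFac % 3) * (c % 3) % 3 := by
        conv_lhs => rw [hc]
        rw [Nat.mul_mod]
      have hodd : N.minFac % 3 = 1 := by
        have h2 : N.minFac % 3 ≠ 0 := by
          intro h0
          rw [h, h0, zero_mul] at hm
          omega
        omega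
      have hc3 : c % 3 = 2 := by
        rw [h, hodd, one_mul] at hm
        omega
      have hcN : c < N := by
        have h5 : 2 ≤ N.minFac := hp.two_le
        have h6 : 0 < c := by omega
        calc c < 2 * c := by omega
          _ ≤ N.minFac * c := Nat.mul_le_mul_right c h5
          _ = N := hc.symm
      obtain ⟨p, hp1, hp2, hp3'⟩ := ih c hcN hc3
      exact ⟨p, hp1, hp2.trans ⟨N.minFac, by rw [mul_comm]; exact hc⟩, hp3'⟩

/-- squares modulo 11 -/
def s11 : ℕ := 0x23b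

/-- squares modulo 31 -/
def s31 : ℕ := 0x121d47b7

/-- squares modulo 41 -/
def s41 : ℕ := 0x1b382b50737

/-- squares modulo 61 -/
def s61 : ℕ := 0x1713e6940a59f23b

theorem hs11 : chkS 11 s11 = true := by decide +kernel
theorem hs31 : chkS 31 s31 = true := by decide +kernel
theorem hs41 : chkS 41 s41 = true := by decide +kernel
theorem hs61 : chkS 61 s61 = true := by decide +kernel

theorem kl_congr {q π T S n d d' : ℕ} (h : d % q = d' % q) : kl q π T S n d = kl q π T S n d' := by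
  unfold kl
  rw [h]

/-- one of the five tests excludes `(n, d)` -/
def k5 (n d : ℕ) : Bool :=
  kl 31 30 f31 s31 n d || (kl 11 10 f11 s11 n d || (kl 41 40 f41 s41 n d ||
    (kl 61 60 f61 s61 n d || kl 71 70 f71 s71 n d)))

theorem k5_sound {N d d' : ℕ} {x y : ℤ} (he : 2 * (Nat.fib N : ℤ) = x ^ 3 + y ^ 3)
    (hd : x + y = d) (h11 : d' % 11 = d % 11) (h31 : d' % 31 = d % 31) (h41 : d' % 41 = d % 41)
    (h61 : d' % 61 = d % 61) (h71 : d' % 71 = d % 71)
    (h : k5 (N % 840) d' = true) : False := by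
  unfold k5 at h
  rw [kl_congr h11, kl_congr h31, kl_congr h41, kl_congr h61, kl_congr h71] at h
  simp only [Bool.or_eq_true] at h
  rcases h with h | h | h | h | h
  · exact kl_sound (by norm_num) (by norm_num) hf31 hs31 (M := 840) (by norm_num) he hd h
  · exact kl_sound (by norm_num) (by norm_num) hf11 hs11 (M := 840) (by norm_num) he hd h
  · exact kl_sound (by norm_num) (by norm_num) hf41 hs41 (M := 840) (by norm_num) he hd h
  · exact kl_sound (by norm_num) (by norm_num) hf61 hs61 (M := 840) (by norm_num) he hd h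
  · exact kl_sound (by norm_num) (by norm_num) hf71 hs71 (M := 840) (by norm_num) he hd h

/-- all pairs `(n, c)` with `n` odd, divisible by `5`, not by `3`, (and by `7` for `k = 26`) -/
noncomputable def chkC (k : ℕ) : Bool :=
  allB (fun n => (!(Nat.beq (n % 10) 5)) || (Nat.beq (n % 3) 0 ||
    ((Nat.beq k 26 && !(Nat.beq (n % 7) 0)) || allB (fun c => k5 n (k * 5 ^ c)) 60))) 840

theorem chkC2 : chkC 2 = true := by decide +kernel
theorem chkC26 : chkC 26 = true := by decide +kernel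

theorem pow5_mod {q : ℕ} (hq : 5 ^ 60 % q = 1 % q) (k c : ℕ) :
    (k * 5 ^ (c % 60)) % q = (k * 5 ^ c) % q := by
  have h0 : 5 ^ 60 ≡ 1 [MOD q] := hq
  have h1 : (5 ^ 60) ^ (c / 60) ≡ 1 [MOD q] := by
    have := h0.pow (c / 60)
    rwa [one_pow] at this
  have h2 : 5 ^ c = (5 ^ 60) ^ (c / 60) * 5 ^ (c % 60) := by
    rw [← pow_mul, ← pow_add, Nat.div_add_mod]
  have h3 := (h1.mul_right (5 ^ (c % 60))).mul_left k
  rw [one_mul, ← h2] at h3
  exact h3.symm

theorem odd_case {N k c : ℕ} {x y : ℤ} (he : 2 * (Nat.fib N : ℤ) = x ^ 3 + y ^ 3)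
    (hd : x + y = ((k * 5 ^ c : ℕ) : ℤ)) (h10 : N % 10 = 5) (h3 : N % 3 ≠ 0)
    (h7 : k = 26 → N % 7 = 0) (hk : k = 2 ∨ k = 26) : False := by
  have hc : chkC k = true := by
    rcases hk with rfl | rfl
    · exact chkC2
    · exact chkC26
  unfold chkC at hc
  have h1 := allB_sound hc (N % 840) (Nat.mod_lt _ (by norm_num))
  simp only [Bool.or_eq_true, Bool.and_eq_true, Bool.not_eq_true'] at h1
  rcases h1 with h1 | h1 | ⟨h1, h2⟩ | h1
  · rw [show N % 840 % 10 = N % 10 by omega, h10] at h1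
    exact Bool.noConfusion h1
  · have := Nat.eq_of_beq_eq_true h1
    omega
  · have h3' := h7 (Nat.eq_of_beq_eq_true h1)
    rw [show N % 840 % 7 = N % 7 by omega, h3'] at h2
    exact Bool.noConfusion h2
  · have h2 := allB_sound h1 (c % 60) (Nat.mod_lt _ (by norm_num))
    exact k5_sound he hd (pow5_mod (by norm_num) k c) (pow5_mod (by norm_num) k c)
      (pow5_mod (by norm_num) k c) (pow5_mod (by norm_num) k c) (pow5_mod (by norm_num) k c) h2

theorem d20 {n : ℕ} (a : 4 ∣ n) (b : 5 ∣ n) : 20 ∣ n := by omega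
theorem d14 {n : ℕ} (a : 2 ∣ n) (b : 7 ∣ n) : 14 ∣ n := by omega
theorem d36 {n : ℕ} (a : 4 ∣ n) (b : 9 ∣ n) : 36 ∣ n := by omega
theorem d50 {n : ℕ} (a : 2 ∣ n) (b : 25 ∣ n) : 50 ∣ n := by omega

theorem a3 {n : ℕ} {x y : ℤ} (h : 2 * (Nat.fib n : ℤ) = x ^ 3 + y ^ 3) (h2 : ¬ 2 ∣ n) : ¬ 3 ∣ n := by
  have hA := partA h
  simp only [Finset.mem_insert, Finset.mem_singleton] at hA
  omega

end H21FC
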