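import Pool.Agent.H21.FC.Smo

/-!
MP_572ea3_nt: if every prime factor of `x + y` is at most 83 then `n` is 1, 2, 6 or 7 (helper21).
-/

set_option autoImplicit false
set_option maxRecDepth 100000

namespace H21FC

/-- squares modulo 17 -/
def s17 : ℕ := 0x1a317

theorem hs17 : chkS 17 s17 = true := by decide +kernel

/-- squares modulo 19 -/
def s19 : ℕ := 0x30af3

theorem hs19 : chkS 19 s19 = true := by decide +kernel

/-- squares modulo 23 -/
def s23 : ℕ := 0x5335f

theorem hs23 : chkS 23 s23 = true := by decide +kernel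

/-- squares modulo 107 -/
def s107 : ℕ := 0x27816ea9821633397be6a897e1b

theorem hs107 : chkS 107 s107 = true := by decide +kernel

/-- squares modulo 181 -/
def s181 : ℕ := 0x1717e2151bcfb266b4947840878a4b59937cf62a11fa3b

theorem hs181 : chkS 181 s181 = true := by decide +kernel

/-- the product of the primes up to 83 -/
def PP83 : ℕ := 267064515689275851355624017992790

theorem primes89 {p : ℕ} (hp : p.Prime) (h : p < 89) : p = 2 ∨ p = 3 ∨ p = 5 ∨ p = 7 ∨ p = 11 ∨ p = 13 ∨ p = 17 ∨ p = 19 ∨ p = 23 ∨ p = 29 ∨ p = 31 ∨ p = 37 ∨ p = 41 ∨ p = 43 ∨ p = 47 ∨ p = 53 ∨ p = 59 ∨ p = 61 ∨ p = 67 ∨ p = 71 ∨ p = 73 ∨ p = 79 ∨ p = 83 := by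
  interval_cases p <;> revert hp <;> norm_num

theorem dvd_PP {p : ℕ} (hp : p.Prime) (h : p < 89) : p ∣ PP83 := by
  have hall : allB (fun p => Nat.beq p 0 || (Nat.beq (PP83 % p) 0 ||
      !(Nat.beq (Nat.gcd p PP83) p) )) 89 = true := by decide +kernel
  unfold PP83
  rcases primes89 hp h with rfl | rfl | rfl | rfl | rfl | rfl | rfl | rfl | rfl | rfl | rfl | rfl | rfl | rfl | rfl | rfl | rfl | rfl | rfl | rfl | rfl | rfl | rfl <;> norm_num

/-- `N` divides the `z`-th Fibonacci number, `N = 2` modulo `3`, no prime factor below `89` -/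
def chkN (z N : ℕ) : Bool :=
  Nat.beq (Nat.fib z % N) 0 && (Nat.beq (N % 3) 2 && Nat.beq (Nat.gcd N PP83) 1)

theorem no_z {n z : ℕ} {x y : ℤ} (N : ℕ) (hc : chkN z N = true)
    (h : 2 * (Nat.fib n : ℤ) = x ^ 3 + y ^ 3)
    (hS : ∀ p : ℕ, p.Prime → (p : ℤ) ∣ x + y → p < 89) : ¬ z ∣ n := by
  unfold chkN at hc
  rw [Bool.and_eq_true, Bool.and_eq_true] at hc
  obtain ⟨h1, h2, h3⟩ := hc
  intro hz
  obtain ⟨p, hp, hpN, hp3⟩ := ex_prime3 N (Nat.eq_of_beq_eq_true h2)
  have hF : p ∣ Nat.fib n :=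
    (hpN.trans (Nat.dvd_of_mod_eq_zero (Nat.eq_of_beq_eq_true h1))).trans (Nat.fib_dvd z n hz)
  have h4 : (p : ℤ) ∣ x ^ 3 + y ^ 3 := by
    rw [← h]
    exact Dvd.dvd.mul_left (by exact_mod_cast hF) 2
  have h5 := hS p hp (forced hp hp3 h4)
  have h6 : p ∣ 1 := by
    rw [← Nat.eq_of_beq_eq_true h3]
    exact Nat.dvd_gcd hpN (dvd_PP hp h5)
  exact hp.one_lt.ne' (Nat.dvd_one.1 h6)

/-- some prime excludes the pair `(n, d)`, `n` modulo 5040 -/
def kB (n d : ℕ) : Bool :=
  (kl 41 40 f41 s41 n d ||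
    (kl 11 10 f11 s11 n d ||
    (kl 17 36 f17 s17 n d ||
    (kl 23 48 f23 s23 n d ||
    (kl 31 30 f31 s31 n d ||
    (kl 61 60 f61 s61 n d ||
    (kl 29 14 f29 s29 n d ||
    (kl 19 18 f19 s19 n d ||
    (kl 13 28 f13 s13 n d ||
    (kl 71 70 f71 s71 n d ||
    (kl 107 72 f107 s107 n d ||
    (kl 211 42 f211 s211 n d ||
    (kl 83 168 f83 s83 n d ||
    (kl 281 56 f281 s281 n d ||
    (kl 181 90 f181 s181 n d ||
    (kl 421 84 f421 s421 n d ||
    (kl 167 336 f167 s167 n d ||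
    (kl 241 240 f241 s241 n d ||
    (kl 541 90 f541 s541 n d ||
    (kl 911 70 f911 s911 n d ||
    (kl 1009 126 f1009 s1009 n d)))))))))))))))))))))

theorem kB_sound {N d : ℕ} {x y : ℤ} (he : 2 * (Nat.fib N : ℤ) = x ^ 3 + y ^ 3) (hd : x + y = d)
    (h : kB (N % 5040) d = true) : False := by
  unfold kB at h
  simp only [Bool.or_eq_true] at h
  rcases h with h | h | h | h | h | h | h | h | h | h | h | h | h | h | h | h | h | h | h | h | h
  · exact kl_sound (by norm_num) (by norm_num) hf41 hs41 (M := 5040) (by norm_num) he hd h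
  · exact kl_sound (by norm_num) (by norm_num) hf11 hs11 (M := 5040) (by norm_num) he hd h
  · exact kl_sound (by norm_num) (by norm_num) hf17 hs17 (M := 5040) (by norm_num) he hd h
  · exact kl_sound (by norm_num) (by norm_num) hf23 hs23 (M := 5040) (by norm_num) he hd h
  · exact kl_sound (by norm_num) (by norm_num) hf31 hs31 (M := 5040) (by norm_num) he hd h
  · exact kl_sound (by norm_num) (by norm_num) hf61 hs61 (M := 5040) (by norm_num) he hd h
  · exact kl_sound (by norm_num) (by norm_num) hf29 hs29 (M := 5040) (by norm_num) he hd h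
  · exact kl_sound (by norm_num) (by norm_num) hf19 hs19 (M := 5040) (by norm_num) he hd h
  · exact kl_sound (by norm_num) (by norm_num) hf13 hs13 (M := 5040) (by norm_num) he hd h
  · exact kl_sound (by norm_num) (by norm_num) hf71 hs71 (M := 5040) (by norm_num) he hd h
  · exact kl_sound (by norm_num) (by norm_num) hf107 hs107 (M := 5040) (by norm_num) he hd h
  · exact kl_sound (by norm_num) (by norm_num) hf211 hs211 (M := 5040) (by norm_num) he hd h
  · exact kl_sound (by norm_num) (by norm_num) hf83 hs83 (M := 5040) (by norm_num) he hd h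
  · exact kl_sound (by norm_num) (by norm_num) hf281 hs281 (M := 5040) (by norm_num) he hd h
  · exact kl_sound (by norm_num) (by norm_num) hf181 hs181 (M := 5040) (by norm_num) he hd h
  · exact kl_sound (by norm_num) (by norm_num) hf421 hs421 (M := 5040) (by norm_num) he hd h
  · exact kl_sound (by norm_num) (by norm_num) hf167 hs167 (M := 5040) (by norm_num) he hd h
  · exact kl_sound (by norm_num) (by norm_num) hf241 hs241 (M := 5040) (by norm_num) he hd h
  · exact kl_sound (by norm_num) (by norm_num) hf541 hs541 (M := 5040) (by norm_num) he hd h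
  · exact kl_sound (by norm_num) (by norm_num) hf911 hs911 (M := 5040) (by norm_num) he hd h
  · exact kl_sound (by norm_num) (by norm_num) hf1009 hs1009 (M := 5040) (by norm_num) he hd h

/-- `Q (acc * d)` for all `d = p₁ ^ a₁ * p₂ ^ a₂ * ...` with `aᵢ ≤ kᵢ` -/
noncomputable def allD (Q : ℕ → Bool) : List (ℕ × ℕ) → ℕ → Bool
  | [], acc => Q acc
  | t :: l, acc => allB (fun a => allD Q l (acc * t.1 ^ a)) (t.2 + 1)

/-- the product of the prime powers -/
def prL : List (ℕ × ℕ) → ℕ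
  | [] => 1
  | t :: l => t.1 ^ t.2 * prL l

theorem allD_sound {Q : ℕ → Bool} (l : List (ℕ × ℕ)) (hl : ∀ t ∈ l, t.1.Prime) :
    ∀ acc, allD Q l acc = true → ∀ d, d ∣ prL l → Q (acc * d) = true := by
  induction l with
  | nil =>
    intro acc h d hd
    have : d = 1 := Nat.dvd_one.1 hd
    rw [this, mul_one]
    exact h
  | cons t l ih =>
    intro acc h d hd
    obtain ⟨d1, d2, h1, h2, rfl⟩ := Nat.dvd_mul.1 hd
    obtain ⟨a, ha, rfl⟩ := (Nat.dvd_prime_pow (hl t (by simp))).1 h1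
    have h3 := allB_sound (show allB (fun a => allD Q l (acc * t.1 ^ a)) (t.2 + 1) = true from h) a (by omega)
    have h4 := ih (fun t ht => hl t (by simp [ht])) _ h3 d2 h2
    rwa [mul_assoc] at h4

/-- case `4 ∣ n`, `5 ∣ n` -/
noncomputable def QA (d : ℕ) : Bool :=
  Nat.ble d 1000000 || allB (fun j => Nat.beq (j % 4) 0 || (Nat.beq (j % 3) 0 ||
    (Nat.beq (j % 7) 0 || kB (60 * j) d))) 84

/-- case `n = 2` modulo `4`, `5 ∣ n` -/
noncomputable def QB (d : ℕ) : Bool :=
  Nat.ble d 1000000 || allB (fun j => Nat.beq (j % 2) 0 || (Nat.beq (j % 7) 0 || kB (10 * j) d)) 504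

/-- case `n = 2` modulo `4`, `5` does not divide `n` -/
noncomputable def QC (d : ℕ) : Bool :=
  Nat.ble d 1000000 || allB (fun j => Nat.beq ((4 * j + 2) % 5) 0 || kB (4 * j + 2) d) 1260

/-- prime powers, case A -/
def LA : List (ℕ × ℕ) := [(2, 6), (3, 2), (5, 1), (7, 1), (11, 1), (23, 1), (31, 1), (41, 1), (61, 1)]

/-- prime powers, case B -/
def LB : List (ℕ × ℕ) := [(2, 4), (5, 1), (11, 1), (17, 1), (19, 1), (31, 1), (53, 1), (61, 1)]

/-- prime powers, case C -/
def LC : List (ℕ × ℕ) := [(2, 4), (13, 1), (17, 1), (19, 1), (29, 1), (53, 1)]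

theorem chkA : allD QA LA 1 = true := by decide +kernel
theorem chkB : allD QB LB 1 = true := by decide +kernel
theorem chkC' : allD QC LC 1 = true := by decide +kernel

theorem d_4_5 {n : ℕ} (a : 4 ∣ n) (b : 5 ∣ n) : 20 ∣ n := by omega
theorem d_4_3 {n : ℕ} (a : 4 ∣ n) (b : 3 ∣ n) : 12 ∣ n := by omega
theorem d_16_3 {n : ℕ} (a : 16 ∣ n) (b : 3 ∣ n) : 48 ∣ n := by omega
theorem d_4_7 {n : ℕ} (a : 4 ∣ n) (b : 7 ∣ n) : 28 ∣ n := by omega
theorem d_4_9 {n : ℕ} (a : 4 ∣ n) (b : 9 ∣ n) : 36 ∣ n := by omega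
theorem d_2_25 {n : ℕ} (a : 2 ∣ n) (b : 25 ∣ n) : 50 ∣ n := by omega
theorem d_2_5_7 {n : ℕ} (a : 2 ∣ n) (b : 5 ∣ n) (c : 7 ∣ n) : 70 ∣ n := by omega

theorem a34 {n : ℕ} {x y : ℤ} (h : 2 * (Nat.fib n : ℤ) = x ^ 3 + y ^ 3) :
    (4 ∣ n → 3 ∣ n) ∧ (¬ 2 ∣ n → ¬ 3 ∣ n) := by
  have hA := partA h
  simp only [Finset.mem_insert, Finset.mem_singleton] at hA
  omega

/-- `d` divides `K` if this holds for the prime powers -/
theorem dvd_of {N d K : ℕ} (hd : d ∣ N) (hS : ∀ p : ℕ, p.Prime → p ∣ d → p < 89)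
    (hK : ∀ p k : ℕ, 0 < k → p.Prime → p < 89 → p ^ k ∣ d → p ^ k ∣ K) : d ∣ K := by
  refine (Nat.dvd_iff_prime_pow_dvd_dvd _ _).2 ?_
  intro p k hp hk
  rcases Nat.eq_zero_or_pos k with rfl | hk0
  · simp
  · exact hK p k hk0 hp (hS p hp ((dvd_pow_self p hk0.ne').trans hk)) hk

theorem r2_1 {n : ℕ} (h : 2 ^ (1 + 1) ∣ 2 * Nat.fib n) : 3 ∣ n :=
  rank' (q := 2) (z := 3) (by decide +kernel) (Nat.dvd_of_mul_dvd_mul_left (by norm_num : 0 < 2)
      (by rw [show 2 * 2 = 2 ^ (1 + 1) by norm_num]; exact h))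

theorem r2_4 {n : ℕ} (h : 2 ^ (4 + 1) ∣ 2 * Nat.fib n) : 12 ∣ n :=
  rank' (q := 16) (z := 12) (by decide +kernel) (Nat.dvd_of_mul_dvd_mul_left (by norm_num : 0 < 2)
      (by rw [show 2 * 16 = 2 ^ (4 + 1) by norm_num]; exact h))

theorem r2_6 {n : ℕ} (h : 2 ^ (6 + 1) ∣ 2 * Nat.fib n) : 48 ∣ n :=
  rank' (q := 64) (z := 48) (by decide +kernel) (Nat.dvd_of_mul_dvd_mul_left (by norm_num : 0 < 2)
      (by rw [show 2 * 64 = 2 ^ (6 + 1) by norm_num]; exact h))

theorem r3_0 {n : ℕ} (h : 3 ^ (0 + 1) ∣ 2 * Nat.fib n) : 4 ∣ n :=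
  rank2 (by norm_num) (by decide +kernel) h

theorem r3_2 {n : ℕ} (h : 3 ^ (2 + 1) ∣ 2 * Nat.fib n) : 36 ∣ n :=
  rank2 (by norm_num) (by decide +kernel) h

theorem r5_0 {n : ℕ} (h : 5 ^ (0 + 1) ∣ 2 * Nat.fib n) : 5 ∣ n :=
  rank2 (by norm_num) (by decide +kernel) h

theorem r5_1 {n : ℕ} (h : 5 ^ (1 + 1) ∣ 2 * Nat.fib n) : 25 ∣ n :=
  rank2 (by norm_num) (by decide +kernel) h

theorem r7_0 {n : ℕ} (h : 7 ^ (0 + 1) ∣ 2 * Nat.fib n) : 8 ∣ n :=
  rank2 (by norm_num) (by decide +kernel) h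

theorem r7_1 {n : ℕ} (h : 7 ^ (1 + 1) ∣ 2 * Nat.fib n) : 56 ∣ n :=
  rank2 (by norm_num) (by decide +kernel) h

theorem r11_0 {n : ℕ} (h : 11 ^ (0 + 1) ∣ 2 * Nat.fib n) : 10 ∣ n :=
  rank2 (by norm_num) (by decide +kernel) h

theorem r11_1 {n : ℕ} (h : 11 ^ (1 + 1) ∣ 2 * Nat.fib n) : 110 ∣ n :=
  rank2 (by norm_num) (by decide +kernel) h

theorem r13_0 {n : ℕ} (h : 13 ^ (0 + 1) ∣ 2 * Nat.fib n) : 7 ∣ n :=
  rank2 (by norm_num) (by decide +kernel) h

theorem r13_1 {n : ℕ} (h : 13 ^ (1 + 1) ∣ 2 * Nat.fib n) : 91 ∣ n :=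
  rank2 (by norm_num) (by decide +kernel) h

theorem r17_0 {n : ℕ} (h : 17 ^ (0 + 1) ∣ 2 * Nat.fib n) : 9 ∣ n :=
  rank2 (by norm_num) (by decide +kernel) h

theorem r17_1 {n : ℕ} (h : 17 ^ (1 + 1) ∣ 2 * Nat.fib n) : 153 ∣ n :=
  rank2 (by norm_num) (by decide +kernel) h

theorem r19_0 {n : ℕ} (h : 19 ^ (0 + 1) ∣ 2 * Nat.fib n) : 18 ∣ n :=
  rank2 (by norm_num) (by decide +kernel) h

theorem r19_1 {n : ℕ} (h : 19 ^ (1 + 1) ∣ 2 * Nat.fib n) : 342 ∣ n :=
  rank2 (by norm_num) (by decide +kernel) h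

theorem r23_0 {n : ℕ} (h : 23 ^ (0 + 1) ∣ 2 * Nat.fib n) : 24 ∣ n :=
  rank2 (by norm_num) (by decide +kernel) h

theorem r23_1 {n : ℕ} (h : 23 ^ (1 + 1) ∣ 2 * Nat.fib n) : 552 ∣ n :=
  rank2 (by norm_num) (by decide +kernel) h

theorem r29_0 {n : ℕ} (h : 29 ^ (0 + 1) ∣ 2 * Nat.fib n) : 14 ∣ n :=
  rank2 (by norm_num) (by decide +kernel) h

theorem r29_1 {n : ℕ} (h : 29 ^ (1 + 1) ∣ 2 * Nat.fib n) : 406 ∣ n :=
  rank2 (by norm_num) (by decide +kernel) h

theorem r31_0 {n : ℕ} (h : 31 ^ (0 + 1) ∣ 2 * Nat.fib n) : 30 ∣ n :=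
  rank2 (by norm_num) (by decide +kernel) h

theorem r31_1 {n : ℕ} (h : 31 ^ (1 + 1) ∣ 2 * Nat.fib n) : 930 ∣ n :=
  rank2 (by norm_num) (by decide +kernel) h

theorem r37_0 {n : ℕ} (h : 37 ^ (0 + 1) ∣ 2 * Nat.fib n) : 19 ∣ n :=
  rank2 (by norm_num) (by decide +kernel) h

theorem r41_0 {n : ℕ} (h : 41 ^ (0 + 1) ∣ 2 * Nat.fib n) : 20 ∣ n :=
  rank2 (by norm_num) (by decide +kernel) h

theorem r41_1 {n : ℕ} (h : 41 ^ (1 + 1) ∣ 2 * Nat.fib n) : 820 ∣ n :=
  rank2 (by norm_num) (by decide +kernel) h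

theorem r43_0 {n : ℕ} (h : 43 ^ (0 + 1) ∣ 2 * Nat.fib n) : 44 ∣ n :=
  rank2 (by norm_num) (by decide +kernel) h

theorem r47_0 {n : ℕ} (h : 47 ^ (0 + 1) ∣ 2 * Nat.fib n) : 16 ∣ n :=
  rank2 (by norm_num) (by decide +kernel) h

theorem r53_0 {n : ℕ} (h : 53 ^ (0 + 1) ∣ 2 * Nat.fib n) : 27 ∣ n :=
  rank2 (by norm_num) (by decide +kernel) h

theorem r53_1 {n : ℕ} (h : 53 ^ (1 + 1) ∣ 2 * Nat.fib n) : 1431 ∣ n :=
  rank2 (by norm_num) (by decide +kernel) h

theorem r59_0 {n : ℕ} (h : 59 ^ (0 + 1) ∣ 2 * Nat.fib n) : 58 ∣ n :=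
  rank2 (by norm_num) (by decide +kernel) h

theorem r61_0 {n : ℕ} (h : 61 ^ (0 + 1) ∣ 2 * Nat.fib n) : 15 ∣ n :=
  rank2 (by norm_num) (by decide +kernel) h

theorem r61_1 {n : ℕ} (h : 61 ^ (1 + 1) ∣ 2 * Nat.fib n) : 915 ∣ n :=
  rank2 (by norm_num) (by decide +kernel) h

theorem r67_0 {n : ℕ} (h : 67 ^ (0 + 1) ∣ 2 * Nat.fib n) : 68 ∣ n :=
  rank2 (by norm_num) (by decide +kernel) h

theorem r71_0 {n : ℕ} (h : 71 ^ (0 + 1) ∣ 2 * Nat.fib n) : 70 ∣ n :=
  rank2 (by norm_num) (by decide +kernel) h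

theorem r73_0 {n : ℕ} (h : 73 ^ (0 + 1) ∣ 2 * Nat.fib n) : 37 ∣ n :=
  rank2 (by norm_num) (by decide +kernel) h

theorem r79_0 {n : ℕ} (h : 79 ^ (0 + 1) ∣ 2 * Nat.fib n) : 78 ∣ n :=
  rank2 (by norm_num) (by decide +kernel) h

theorem r83_0 {n : ℕ} (h : 83 ^ (0 + 1) ∣ 2 * Nat.fib n) : 84 ∣ n :=
  rank2 (by norm_num) (by decide +kernel) h

theorem smooth {n : ℕ} (hn : 0 < n) {x y : ℤ} (h : 2 * (Nat.fib n : ℤ) = x ^ 3 + y ^ 3)
    (hS : ∀ p : ℕ, p.Prime → (p : ℤ) ∣ x + y → p < 89) : n = 1 ∨ n = 2 ∨ n = 6 ∨ n = 7 := by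
  have h0 := sum_pos hn h
  obtain ⟨d, hd⟩ := Int.eq_ofNat_of_zero_le h0.le
  have hd0 : 0 < d := by omega
  have hdN : d ∣ 2 * Nat.fib n := by
    have : (d : ℤ) ∣ ((2 * Nat.fib n : ℕ) : ℤ) := by
      push_cast
      rw [h, ← hd]
      exact ⟨x ^ 2 - x * y + y ^ 2, by ring⟩
    exact_mod_cast this
  have hSd : ∀ p : ℕ, p.Prime → p ∣ d → p < 89 := by
    intro p hp hpd
    refine hS p hp ?_
    rw [hd]
    exact_mod_cast hpd
  have fin : d ≤ 1000000 → n = 1 ∨ n = 2 ∨ n = 6 ∨ n = 7 := by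
    intro hle
    exact small hn h (by rw [hd]; exact_mod_cast hle)
  obtain ⟨h43, h23⟩ := a34 h
  have z11 : ¬ 11 ∣ n := no_z 89 (by decide +kernel) h hS
  have z50 : ¬ 50 ∣ n := no_z 101 (by decide +kernel) h hS
  have z36 : ¬ 36 ∣ n := no_z 107 (by decide +kernel) h hS
  have z19 : ¬ 19 ∣ n := no_z 113 (by decide +kernel) h hS
  have z37 : ¬ 37 ∣ n := no_z 149 (by decide +kernel) h hS
  have z13 : ¬ 13 ∣ n := no_z 233 (by decide +kernel) h hS
  have z28 : ¬ 28 ∣ n := no_z 281 (by decide +kernel) h hS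
  have z46 : ¬ 46 ∣ n := no_z 461 (by decide +kernel) h hS
  have z31 : ¬ 31 ∣ n := no_z 557 (by decide +kernel) h hS
  have z70 : ¬ 70 ∣ n := no_z 911 (by decide +kernel) h hS
  have z48 : ¬ 48 ∣ n := no_z 1103 (by decide +kernel) h hS
  have z29 : ¬ 29 ∣ n := no_z 514229 (by decide +kernel) h hS
  have z41 : ¬ 41 ∣ n := no_z 2789 (by decide +kernel) h hS
  have z53 : ¬ 53 ∣ n := no_z 953 (by decide +kernel) h hS
  have z61 : ¬ 61 ∣ n := no_z 555003497 (by decide +kernel) h hS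
  have z68 : ¬ 68 ∣ n := no_z 63443 (by decide +kernel) h hS
  have z153 : ¬ 153 ∣ n := no_z 73062767347748211449498651441 (by decide +kernel) h hS
  by_cases h4 : 4 ∣ n
  · by_cases h5 : 5 ∣ n
    · have hK : d ∣ 395445314880 := by
        refine dvd_of hdN hSd ?_
        intro p k hk0 hp hp89 hk
        rcases primes89 hp hp89 with rfl | rfl | rfl | rfl | rfl | rfl | rfl | rfl | rfl | rfl | rfl | rfl | rfl | rfl | rfl | rfl | rfl | rfl | rfl | rfl | rfl | rfl | rfl
        · exact (hb hdN (fun h => z48 (r2_6 h)) hk).trans (by norm_num)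
        · exact (hb hdN (fun h => z36 (r3_2 h)) hk).trans (by norm_num)
        · exact (hb hdN (fun h => z50 (d_2_25 ((by norm_num : 2 ∣ 4).trans h4) (r5_1 h))) hk).trans (by norm_num)
        · exact (hb hdN (fun h => z28 ((by norm_num : 28 ∣ 56).trans (r7_1 h))) hk).trans (by norm_num)
        · exact (hb hdN (fun h => z11 ((by norm_num : 11 ∣ 110).trans (r11_1 h))) hk).trans (by norm_num)
        · exact (hb hdN (fun h => z28 (d_4_7 h4 (r13_0 h))) hk).trans (by norm_num)
        · exact (hb hdN (fun h => z36 (d_4_9 h4 (r17_0 h))) hk).trans (by norm_num)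
        · exact (hb hdN (fun h => z36 (d_4_9 h4 ((by norm_num : 9 ∣ 18).trans (r19_0 h)))) hk).trans (by norm_num)
        · exact (hb hdN (fun h => z46 ((by norm_num : 46 ∣ 552).trans (r23_1 h))) hk).trans (by norm_num)
        · exact (hb hdN (fun h => z28 (d_4_7 h4 ((by norm_num : 7 ∣ 14).trans (r29_0 h)))) hk).trans (by norm_num)
        · exact (hb hdN (fun h => z31 ((by norm_num : 31 ∣ 930).trans (r31_1 h))) hk).trans (by norm_num)
        · exact (hb hdN (fun h => z19 (r37_0 h)) hk).trans (by norm_num)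
        · exact (hb hdN (fun h => z41 ((by norm_num : 41 ∣ 820).trans (r41_1 h))) hk).trans (by norm_num)
        · exact (hb hdN (fun h => z11 ((by norm_num : 11 ∣ 44).trans (r43_0 h))) hk).trans (by norm_num)
        · exact (hb hdN (fun h => z48 (d_16_3 (r47_0 h) (h43 h4))) hk).trans (by norm_num)
        · exact (hb hdN (fun h => z36 (d_4_9 h4 ((by norm_num : 9 ∣ 27).trans (r53_0 h)))) hk).trans (by norm_num)
        · exact (hb hdN (fun h => z29 ((by norm_num : 29 ∣ 58).trans (r59_0 h))) hk).trans (by norm_num)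
        · exact (hb hdN (fun h => z61 ((by norm_num : 61 ∣ 915).trans (r61_1 h))) hk).trans (by norm_num)
        · exact (hb hdN (fun h => z68 (r67_0 h)) hk).trans (by norm_num)
        · exact (hb hdN (fun h => z70 (r71_0 h)) hk).trans (by norm_num)
        · exact (hb hdN (fun h => z37 (r73_0 h)) hk).trans (by norm_num)
        · exact (hb hdN (fun h => z13 ((by norm_num : 13 ∣ 78).trans (r79_0 h))) hk).trans (by norm_num)
        · exact (hb hdN (fun h => z28 ((by norm_num : 28 ∣ 84).trans (r83_0 h))) hk).trans (by norm_num)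
      have hl : ∀ t ∈ LA, t.1.Prime := by unfold LA; simp only [List.mem_cons, List.not_mem_nil, or_false, forall_eq_or_imp, forall_eq]; norm_num
      have hQ := allD_sound LA hl 1 chkA d (by rw [show prL LA = 395445314880 by decide +kernel]; exact hK)
      rw [one_mul] at hQ
      unfold QA at hQ
      rw [Bool.or_eq_true] at hQ
      rcases hQ with hQ | hQ
      · exact fin (Nat.le_of_ble_eq_true hQ)
      exfalso
      have h60 : 60 ∣ n := (by have := h43 h4; clear z11 z50 z36 z19 z37 z13 z28 z46 z31 z70 z48 z29 z41 z53 z61 z68 z153; omega)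
      obtain ⟨m, rfl⟩ := h60
      have hj := allB_sound hQ (m % 84) (Nat.mod_lt _ (by norm_num))
      simp only [Bool.or_eq_true] at hj
      rcases hj with hj | hj | hj | hj
      · refine z48 ?_
        have h1 := Nat.eq_of_beq_eq_true hj
        have h2 : 4 ∣ m := by clear z11 z50 z36 z19 z37 z13 z28 z46 z31 z70 z48 z29 z41 z53 z61 z68 z153; omega
        exact (show 48 ∣ 60 * 4 by norm_num).trans (Nat.mul_dvd_mul_left 60 h2)
      · refine z36 ?_
        have h1 := Nat.eq_of_beq_eq_true hj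
        have h2 : 3 ∣ m := by clear z11 z50 z36 z19 z37 z13 z28 z46 z31 z70 z48 z29 z41 z53 z61 z68 z153; omega
        exact (show 36 ∣ 60 * 3 by norm_num).trans (Nat.mul_dvd_mul_left 60 h2)
      · refine z28 ?_
        have h1 := Nat.eq_of_beq_eq_true hj
        have h2 : 7 ∣ m := by clear z11 z50 z36 z19 z37 z13 z28 z46 z31 z70 z48 z29 z41 z53 z61 z68 z153; omega
        exact (show 28 ∣ 60 * 7 by norm_num).trans (Nat.mul_dvd_mul_left 60 h2)
      · have h1 : 60 * (m % 84) = (60 * m) % 5040 := by clear z11 z50 z36 z19 z37 z13 z28 z46 z31 z70 z48 z29 z41 z53 z61 z68 z153; omega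
        rw [h1] at hj
        exact kB_sound h hd hj
    · have hK : d ∣ 92736 := by
        refine dvd_of hdN hSd ?_
        intro p k hk0 hp hp89 hk
        rcases primes89 hp hp89 with rfl | rfl | rfl | rfl | rfl | rfl | rfl | rfl | rfl | rfl | rfl | rfl | rfl | rfl | rfl | rfl | rfl | rfl | rfl | rfl | rfl | rfl | rfl
        · exact (hb hdN (fun h => z48 (r2_6 h)) hk).trans (by norm_num)
        · exact (hb hdN (fun h => z36 (r3_2 h)) hk).trans (by norm_num)
        · exact (hb hdN (fun h => h5 (r5_0 h)) hk).trans (by norm_num)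
        · exact (hb hdN (fun h => z28 ((by norm_num : 28 ∣ 56).trans (r7_1 h))) hk).trans (by norm_num)
        · exact (hb hdN (fun h => h5 ((by norm_num : 5 ∣ 10).trans (r11_0 h))) hk).trans (by norm_num)
        · exact (hb hdN (fun h => z28 (d_4_7 h4 (r13_0 h))) hk).trans (by norm_num)
        · exact (hb hdN (fun h => z36 (d_4_9 h4 (r17_0 h))) hk).trans (by norm_num)
        · exact (hb hdN (fun h => z36 (d_4_9 h4 ((by norm_num : 9 ∣ 18).trans (r19_0 h)))) hk).trans (by norm_num)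
        · exact (hb hdN (fun h => z46 ((by norm_num : 46 ∣ 552).trans (r23_1 h))) hk).trans (by norm_num)
        · exact (hb hdN (fun h => z28 (d_4_7 h4 ((by norm_num : 7 ∣ 14).trans (r29_0 h)))) hk).trans (by norm_num)
        · exact (hb hdN (fun h => h5 ((by norm_num : 5 ∣ 30).trans (r31_0 h))) hk).trans (by norm_num)
        · exact (hb hdN (fun h => z19 (r37_0 h)) hk).trans (by norm_num)
        · exact (hb hdN (fun h => h5 ((by norm_num : 5 ∣ 20).trans (r41_0 h))) hk).trans (by norm_num)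
        · exact (hb hdN (fun h => z11 ((by norm_num : 11 ∣ 44).trans (r43_0 h))) hk).trans (by norm_num)
        · exact (hb hdN (fun h => z48 (d_16_3 (r47_0 h) (h43 h4))) hk).trans (by norm_num)
        · exact (hb hdN (fun h => z36 (d_4_9 h4 ((by norm_num : 9 ∣ 27).trans (r53_0 h)))) hk).trans (by norm_num)
        · exact (hb hdN (fun h => z29 ((by norm_num : 29 ∣ 58).trans (r59_0 h))) hk).trans (by norm_num)
        · exact (hb hdN (fun h => h5 ((by norm_num : 5 ∣ 15).trans (r61_0 h))) hk).trans (by norm_num)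
        · exact (hb hdN (fun h => z68 (r67_0 h)) hk).trans (by norm_num)
        · exact (hb hdN (fun h => z70 (r71_0 h)) hk).trans (by norm_num)
        · exact (hb hdN (fun h => z37 (r73_0 h)) hk).trans (by norm_num)
        · exact (hb hdN (fun h => z13 ((by norm_num : 13 ∣ 78).trans (r79_0 h))) hk).trans (by norm_num)
        · exact (hb hdN (fun h => z28 ((by norm_num : 28 ∣ 84).trans (r83_0 h))) hk).trans (by norm_num)
      exact fin ((Nat.le_of_dvd (by norm_num) hK).trans (by norm_num))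
  by_cases h2 : 2 ∣ n
  · by_cases h5 : 5 ∣ n
    · have hK : d ∣ 28487385520 := by
        refine dvd_of hdN hSd ?_
        intro p k hk0 hp hp89 hk
        rcases primes89 hp hp89 with rfl | rfl | rfl | rfl | rfl | rfl | rfl | rfl | rfl | rfl | rfl | rfl | rfl | rfl | rfl | rfl | rfl | rfl | rfl | rfl | rfl | rfl | rfl
        · exact (hb hdN (fun h => h4 ((by norm_num : 4 ∣ 12).trans (r2_4 h))) hk).trans (by norm_num)
        · exact (hb hdN (fun h => h4 (r3_0 h)) hk).trans (by norm_num)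
        · exact (hb hdN (fun h => z50 (d_2_25 h2 (r5_1 h))) hk).trans (by norm_num)
        · exact (hb hdN (fun h => h4 ((by norm_num : 4 ∣ 8).trans (r7_0 h))) hk).trans (by norm_num)
        · exact (hb hdN (fun h => z11 ((by norm_num : 11 ∣ 110).trans (r11_1 h))) hk).trans (by norm_num)
        · exact (hb hdN (fun h => z70 (d_2_5_7 h2 h5 (r13_0 h))) hk).trans (by norm_num)
        · exact (hb hdN (fun h => z153 (r17_1 h)) hk).trans (by norm_num)
        · exact (hb hdN (fun h => z19 ((by norm_num : 19 ∣ 342).trans (r19_1 h))) hk).trans (by norm_num)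
        · exact (hb hdN (fun h => h4 ((by norm_num : 4 ∣ 24).trans (r23_0 h))) hk).trans (by norm_num)
        · exact (hb hdN (fun h => z70 (d_2_5_7 h2 h5 ((by norm_num : 7 ∣ 14).trans (r29_0 h)))) hk).trans (by norm_num)
        · exact (hb hdN (fun h => z31 ((by norm_num : 31 ∣ 930).trans (r31_1 h))) hk).trans (by norm_num)
        · exact (hb hdN (fun h => z19 (r37_0 h)) hk).trans (by norm_num)
        · exact (hb hdN (fun h => h4 ((by norm_num : 4 ∣ 20).trans (r41_0 h))) hk).trans (by norm_num)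
        · exact (hb hdN (fun h => h4 ((by norm_num : 4 ∣ 44).trans (r43_0 h))) hk).trans (by norm_num)
        · exact (hb hdN (fun h => h4 ((by norm_num : 4 ∣ 16).trans (r47_0 h))) hk).trans (by norm_num)
        · exact (hb hdN (fun h => z53 ((by norm_num : 53 ∣ 1431).trans (r53_1 h))) hk).trans (by norm_num)
        · exact (hb hdN (fun h => z29 ((by norm_num : 29 ∣ 58).trans (r59_0 h))) hk).trans (by norm_num)
        · exact (hb hdN (fun h => z61 ((by norm_num : 61 ∣ 915).trans (r61_1 h))) hk).trans (by norm_num)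
        · exact (hb hdN (fun h => z68 (r67_0 h)) hk).trans (by norm_num)
        · exact (hb hdN (fun h => z70 (r71_0 h)) hk).trans (by norm_num)
        · exact (hb hdN (fun h => z37 (r73_0 h)) hk).trans (by norm_num)
        · exact (hb hdN (fun h => z13 ((by norm_num : 13 ∣ 78).trans (r79_0 h))) hk).trans (by norm_num)
        · exact (hb hdN (fun h => h4 ((by norm_num : 4 ∣ 84).trans (r83_0 h))) hk).trans (by norm_num)
      have hl : ∀ t ∈ LB, t.1.Prime := by unfold LB; simp only [List.mem_cons, List.not_mem_nil, or_false, forall_eq_or_imp, forall_eq]; norm_num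
      have hQ := allD_sound LB hl 1 chkB d (by rw [show prL LB = 28487385520 by decide +kernel]; exact hK)
      rw [one_mul] at hQ
      unfold QB at hQ
      rw [Bool.or_eq_true] at hQ
      rcases hQ with hQ | hQ
      · exact fin (Nat.le_of_ble_eq_true hQ)
      exfalso
      have h10 : 10 ∣ n := (by clear z11 z50 z36 z19 z37 z13 z28 z46 z31 z70 z48 z29 z41 z53 z61 z68 z153; omega)
      obtain ⟨m, rfl⟩ := h10
      have hj := allB_sound hQ (m % 504) (Nat.mod_lt _ (by norm_num))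
      simp only [Bool.or_eq_true] at hj
      rcases hj with hj | hj | hj
      · have h1 := Nat.eq_of_beq_eq_true hj
        clear z11 z50 z36 z19 z37 z13 z28 z46 z31 z70 z48 z29 z41 z53 z61 z68 z153
        omega
      · refine z70 ?_
        have h1 := Nat.eq_of_beq_eq_true hj
        have h2 : 7 ∣ m := by clear z11 z50 z36 z19 z37 z13 z28 z46 z31 z70 z48 z29 z41 z53 z61 z68 z153; omega
        exact (show 70 ∣ 10 * 7 by norm_num).trans (Nat.mul_dvd_mul_left 10 h2)
      · have h1 : 10 * (m % 504) = (10 * m) % 5040 := by clear z11 z50 z36 z19 z37 z13 z28 z46 z31 z70 z48 z29 z41 z53 z61 z68 z153; omega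
        rw [h1] at hj
        exact kB_sound h hd hj
    · have hK : d ∣ 103261808 := by
        refine dvd_of hdN hSd ?_
        intro p k hk0 hp hp89 hk
        rcases primes89 hp hp89 with rfl | rfl | rfl | rfl | rfl | rfl | rfl | rfl | rfl | rfl | rfl | rfl | rfl | rfl | rfl | rfl | rfl | rfl | rfl | rfl | rfl | rfl | rfl
        · exact (hb hdN (fun h => h4 ((by norm_num : 4 ∣ 12).trans (r2_4 h))) hk).trans (by norm_num)
        · exact (hb hdN (fun h => h4 (r3_0 h)) hk).trans (by norm_num)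
        · exact (hb hdN (fun h => h5 (r5_0 h)) hk).trans (by norm_num)
        · exact (hb hdN (fun h => h4 ((by norm_num : 4 ∣ 8).trans (r7_0 h))) hk).trans (by norm_num)
        · exact (hb hdN (fun h => h5 ((by norm_num : 5 ∣ 10).trans (r11_0 h))) hk).trans (by norm_num)
        · exact (hb hdN (fun h => z13 ((by norm_num : 13 ∣ 91).trans (r13_1 h))) hk).trans (by norm_num)
        · exact (hb hdN (fun h => z153 (r17_1 h)) hk).trans (by norm_num)
        · exact (hb hdN (fun h => z19 ((by norm_num : 19 ∣ 342).trans (r19_1 h))) hk).trans (by norm_num)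
        · exact (hb hdN (fun h => h4 ((by norm_num : 4 ∣ 24).trans (r23_0 h))) hk).trans (by norm_num)
        · exact (hb hdN (fun h => z29 ((by norm_num : 29 ∣ 406).trans (r29_1 h))) hk).trans (by norm_num)
        · exact (hb hdN (fun h => h5 ((by norm_num : 5 ∣ 30).trans (r31_0 h))) hk).trans (by norm_num)
        · exact (hb hdN (fun h => z19 (r37_0 h)) hk).trans (by norm_num)
        · exact (hb hdN (fun h => h4 ((by norm_num : 4 ∣ 20).trans (r41_0 h))) hk).trans (by norm_num)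
        · exact (hb hdN (fun h => h4 ((by norm_num : 4 ∣ 44).trans (r43_0 h))) hk).trans (by norm_num)
        · exact (hb hdN (fun h => h4 ((by norm_num : 4 ∣ 16).trans (r47_0 h))) hk).trans (by norm_num)
        · exact (hb hdN (fun h => z53 ((by norm_num : 53 ∣ 1431).trans (r53_1 h))) hk).trans (by norm_num)
        · exact (hb hdN (fun h => z29 ((by norm_num : 29 ∣ 58).trans (r59_0 h))) hk).trans (by norm_num)
        · exact (hb hdN (fun h => h5 ((by norm_num : 5 ∣ 15).trans (r61_0 h))) hk).trans (by norm_num)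
        · exact (hb hdN (fun h => z68 (r67_0 h)) hk).trans (by norm_num)
        · exact (hb hdN (fun h => z70 (r71_0 h)) hk).trans (by norm_num)
        · exact (hb hdN (fun h => z37 (r73_0 h)) hk).trans (by norm_num)
        · exact (hb hdN (fun h => z13 ((by norm_num : 13 ∣ 78).trans (r79_0 h))) hk).trans (by norm_num)
        · exact (hb hdN (fun h => h4 ((by norm_num : 4 ∣ 84).trans (r83_0 h))) hk).trans (by norm_num)
      have hl : ∀ t ∈ LC, t.1.Prime := by unfold LC; simp only [List.mem_cons, List.not_mem_nil, or_false, forall_eq_or_imp, forall_eq]; norm_num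
      have hQ := allD_sound LC hl 1 chkC' d (by rw [show prL LC = 103261808 by decide +kernel]; exact hK)
      rw [one_mul] at hQ
      unfold QC at hQ
      rw [Bool.or_eq_true] at hQ
      rcases hQ with hQ | hQ
      · exact fin (Nat.le_of_ble_eq_true hQ)
      exfalso
      have h42 : n % 5040 % 4 = 2 := (by clear z11 z50 z36 z19 z37 z13 z28 z46 z31 z70 z48 z29 z41 z53 z61 z68 z153; omega)
      have hj := allB_sound hQ (n % 5040 / 4) (by clear z11 z50 z36 z19 z37 z13 z28 z46 z31 z70 z48 z29 z41 z53 z61 z68 z153; omega)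
      have hjn : 4 * (n % 5040 / 4) + 2 = n % 5040 := by clear z11 z50 z36 z19 z37 z13 z28 z46 z31 z70 z48 z29 z41 z53 z61 z68 z153; omega
      simp only [Bool.or_eq_true, hjn] at hj
      rcases hj with hj | hj
      · have h1 := Nat.eq_of_beq_eq_true hj
        clear z11 z50 z36 z19 z37 z13 z28 z46 z31 z70 z48 z29 z41 z53 z61 z68 z153
        omega
      · exact kB_sound h hd hj
  -- n odd, not divisible by 3
  have hn3 : ¬ 3 ∣ n := h23 h2
  obtain ⟨c, k', hk5, hdk⟩ := Nat.exists_eq_pow_mul_and_not_dvd hd0.ne' 5 (by norm_num)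
  have hkd : k' ∣ d := ⟨5 ^ c, by rw [hdk]; ring⟩
  have hk26 : k' ∣ 26 := by
    refine dvd_of (N := 2 * Nat.fib n) (hkd.trans hdN) (fun p hp hpk => hSd p hp (hpk.trans hkd)) ?_
    intro p k hk0 hp hp89 hk
    have hkN := hkd.trans hdN
    rcases primes89 hp hp89 with rfl | rfl | rfl | rfl | rfl | rfl | rfl | rfl | rfl | rfl | rfl | rfl | rfl | rfl | rfl | rfl | rfl | rfl | rfl | rfl | rfl | rfl | rfl
    · exact (hb hkN (fun h => hn3 (r2_1 h)) hk).trans (by norm_num)
    · exact (hb hkN (fun h => h4 (r3_0 h)) hk).trans (by norm_num)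
    · exact absurd ((dvd_pow_self 5 hk0.ne').trans hk) hk5
    · exact (hb hkN (fun h => h4 ((by norm_num : 4 ∣ 8).trans (r7_0 h))) hk).trans (by norm_num)
    · exact (hb hkN (fun h => h2 ((by norm_num : 2 ∣ 10).trans (r11_0 h))) hk).trans (by norm_num)
    · exact (hb hkN (fun h => z13 ((by norm_num : 13 ∣ 91).trans (r13_1 h))) hk).trans (by norm_num)
    · exact (hb hkN (fun h => hn3 ((by norm_num : 3 ∣ 9).trans (r17_0 h))) hk).trans (by norm_num)
    · exact (hb hkN (fun h => h2 ((by norm_num : 2 ∣ 18).trans (r19_0 h))) hk).trans (by norm_num)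
    · exact (hb hkN (fun h => h2 ((by norm_num : 2 ∣ 24).trans (r23_0 h))) hk).trans (by norm_num)
    · exact (hb hkN (fun h => h2 ((by norm_num : 2 ∣ 14).trans (r29_0 h))) hk).trans (by norm_num)
    · exact (hb hkN (fun h => h2 ((by norm_num : 2 ∣ 30).trans (r31_0 h))) hk).trans (by norm_num)
    · exact (hb hkN (fun h => z19 (r37_0 h)) hk).trans (by norm_num)
    · exact (hb hkN (fun h => h2 ((by norm_num : 2 ∣ 20).trans (r41_0 h))) hk).trans (by norm_num)
    · exact (hb hkN (fun h => h2 ((by norm_num : 2 ∣ 44).trans (r43_0 h))) hk).trans (by norm_num)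
    · exact (hb hkN (fun h => h2 ((by norm_num : 2 ∣ 16).trans (r47_0 h))) hk).trans (by norm_num)
    · exact (hb hkN (fun h => hn3 ((by norm_num : 3 ∣ 27).trans (r53_0 h))) hk).trans (by norm_num)
    · exact (hb hkN (fun h => h2 ((by norm_num : 2 ∣ 58).trans (r59_0 h))) hk).trans (by norm_num)
    · exact (hb hkN (fun h => hn3 ((by norm_num : 3 ∣ 15).trans (r61_0 h))) hk).trans (by norm_num)
    · exact (hb hkN (fun h => h2 ((by norm_num : 2 ∣ 68).trans (r67_0 h))) hk).trans (by norm_num)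
    · exact (hb hkN (fun h => h2 ((by norm_num : 2 ∣ 70).trans (r71_0 h))) hk).trans (by norm_num)
    · exact (hb hkN (fun h => z37 (r73_0 h)) hk).trans (by norm_num)
    · exact (hb hkN (fun h => h2 ((by norm_num : 2 ∣ 78).trans (r79_0 h))) hk).trans (by norm_num)
    · exact (hb hkN (fun h => h2 ((by norm_num : 2 ∣ 84).trans (r83_0 h))) hk).trans (by norm_num)
  have hev : 2 ∣ d := by
    have h1 : (2 : ℤ) ∣ x + y := by
      have h2 : Even (x ^ 3 + y ^ 3) := by
        rw [← h]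
        exact even_two_mul _
      have h3 : Even (x + y) := by
        rw [Int.even_add] at h2 ⊢
        rw [Int.even_pow' (by norm_num), Int.even_pow' (by norm_num)] at h2
        exact h2
      exact h3.two_dvd
    rw [hd] at h1
    exact_mod_cast h1
  have hk2 : 2 ∣ k' := by
    rw [hdk] at hev
    rcases Nat.prime_two.dvd_mul.1 hev with h1 | h1
    · exact absurd (Nat.prime_two.dvd_of_dvd_pow h1) (by norm_num)
    · exact h1
  have hk : k' = 2 ∨ k' = 26 := by
    have hle : k' ≤ 26 := Nat.le_of_dvd (by norm_num) hk26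
    clear z11 z50 z36 z19 z37 z13 z28 z46 z31 z70 z48 z29 z41 z53 z61 z68 z153
    have hne : k' ≠ 0 := by
      rintro rfl
      simp at hk26
    interval_cases k' <;> omega
  rcases Nat.eq_zero_or_pos c with rfl | hc0
  · refine fin ?_
    rw [hdk]
    rcases hk with rfl | rfl <;> norm_num
  · exfalso
    have h5d : 5 ∣ d := by
      rw [hdk]
      exact Dvd.dvd.mul_right (dvd_pow_self 5 hc0.ne') k'
    have h5n : 5 ∣ n := r5_0 (by simpa using h5d.trans hdN)
    have h10 : n % 10 = 5 := by clear z11 z50 z36 z19 z37 z13 z28 z46 z31 z70 z48 z29 z41 z53 z61 z68 z153; omega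
    have h3m : n % 3 ≠ 0 := fun h => hn3 (Nat.dvd_of_mod_eq_zero h)
    refine odd_case (k := k') (c := c) h ?_ h10 h3m ?_ hk
    · rw [hd, hdk]
      push_cast
      ring
    · intro hk26'
      have h13 : 13 ∣ d := (by rw [hk26']; norm_num : 13 ∣ k').trans hkd
      exact Nat.mod_eq_zero_of_dvd (r13_0 (by simpa using h13.trans hdN))

end H21FC
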